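import Pool.Agent.QnR.Def

namespace Pool.Agent.QnR

open scoped BigOperators ContDiff

variable {E : Type*} [NormedAddCommGroup E] [NormedSpace ℝ E] [FiniteDimensional ℝ E]
  {U : Set E} {k : ℝ} {g : E → E →L[ℝ] E →L[ℝ] ℝ} {S : E → E →L[ℝ] E} {T : E → E}
  {ν : E → ℝ} {Γ : E → E →L[ℝ] E →L[ℝ] E} {Λ Λs : Finset ℝ} {Pr : ℝ → E → E →L[ℝ] E}

theorem DS_add (u v w z : E) : DS S Γ u v (w + z) = DS S Γ u v w + DS S Γ u v z := by
  simp only [DS, map_add]
  abel

theorem DS_smul (u v w : E) (c : ℝ) : DS S Γ u v (c • w) = c • DS S Γ u v w := by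
  simp only [DS, map_smul, smul_add, smul_sub]

theorem DS_add_left (u v v' w : E) : DS S Γ u (v + v') w = DS S Γ u v w + DS S Γ u v' w := by
  simp only [DS, map_add, ContinuousLinearMap.add_apply]
  abel

theorem DS_smul_left (u v w : E) (c : ℝ) : DS S Γ u (c • v) w = c • DS S Γ u v w := by
  simp only [DS, map_smul, smul_add, smul_sub, ContinuousLinearMap.smul_apply]

theorem DS_sa (h : Geo U k g S T ν Γ) {u : E} (hu : u ∈ U) (v a b : E) :
    g u (DS S Γ u v a) b = g u a (DS S Γ u v b) := by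
  have hUn : U ∈ nhds u := h.op.mem_nhds hu
  have hg : DifferentiableAt ℝ g u :=
    ((h.smg.contDiffAt hUn).differentiableAt (by simp))
  have hS : DifferentiableAt ℝ S u :=
    ((h.smS.contDiffAt hUn).differentiableAt (by simp))
  have e1 : (fun x => g x (S x a) b) =ᶠ[nhds u] fun x => g x a (S x b) := by
    filter_upwards [hUn] with x hx using h.sa x hx a b
  have hSa : HasFDerivAt (fun x => S x a) ((fderiv ℝ S u).flip a) u := by
    have := hS.hasFDerivAt.clm_apply (hasFDerivAt_const a u)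
    convert this using 1
    ext w; simp
  have hSb : HasFDerivAt (fun x => S x b) ((fderiv ℝ S u).flip b) u := by
    have := hS.hasFDerivAt.clm_apply (hasFDerivAt_const b u)
    convert this using 1
    ext w; simp
  have hL := ((hg.hasFDerivAt.clm_apply hSa).clm_apply (hasFDerivAt_const (𝕜 := ℝ) b u))
  have hR := ((hg.hasFDerivAt.clm_apply (hasFDerivAt_const (𝕜 := ℝ) a u)).clm_apply hSb)
  have e2 := e1.fderiv_eq (𝕜 := ℝ)
  have e3 := hL.fderiv
  have e4 := hR.fderiv
  have e5 : fderiv ℝ (fun x => g x (S x a) b) u v = fderiv ℝ (fun x => g x a (S x b)) u v := by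
    rw [e2]
  rw [e3, e4] at e5
  simp at e5
  have d1 := h.dg u hu v (S u a) b
  have d2 := h.dg u hu v a (S u b)
  rw [d1, d2] at e5
  have s1 := h.sa u hu a (Γ u v b)
  have s2 := h.sa u hu (Γ u v a) b
  simp only [DS, map_add, map_sub, ContinuousLinearMap.add_apply, ContinuousLinearMap.sub_apply]
  linarith

theorem block (h : Geo U k g S T ν Γ) (hs : Spec U g S Λ Λs Pr) {u : E} (hu : u ∈ U) {a : ℝ}
    (ha : a ∈ Λ) (v : E) {x y : E} (hx : Pr a u x = x) (hy : Pr a u y = y) :
    g u (DS S Γ u v x) y = 0 := by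
  have hUn : U ∈ nhds u := h.op.mem_nhds hu
  have hS : DifferentiableAt ℝ S u :=
    ((h.smS.contDiffAt hUn).differentiableAt (by simp))
  have hP : DifferentiableAt ℝ (Pr a) u :=
    (((hs.sm a ha).contDiffAt hUn).differentiableAt (by simp))
  have e1 : (fun z => S z (Pr a z x)) =ᶠ[nhds u] fun z => a • Pr a z x := by
    filter_upwards [hUn] with z hz using hs.eig z hz a ha x
  have hPx : HasFDerivAt (fun z => Pr a z x) ((fderiv ℝ (Pr a) u).flip x) u := by
    have := hP.hasFDerivAt.clm_apply (hasFDerivAt_const x u)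
    convert this using 1
    ext w; simp
  have hL := hS.hasFDerivAt.clm_apply hPx
  have hR := hPx.const_smul a
  have e5 : fderiv ℝ (fun z => S z (Pr a z x)) u v = fderiv ℝ (fun z => a • Pr a z x) u v := by
    rw [e1.fderiv_eq]
  have e3 := hL.fderiv
  have e4 : fderiv ℝ (fun z => a • Pr a z x) u = a • (fderiv ℝ (Pr a) u).flip x := hR.fderiv
  rw [e3, e4] at e5
  simp at e5
  rw [hx] at e5
  have q0 : Pr a u (S u (fderiv ℝ (Pr a) u v x) + fderiv ℝ S u v x)
      = Pr a u (a • fderiv ℝ (Pr a) u v x) := by rw [e5]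
  rw [map_add, hs.comm u hu a ha, map_smul] at q0
  have q1 : Pr a u (fderiv ℝ S u v x) = 0 := by
    have := q0
    simpa using this
  have hSx : S u x = a • x := by
    have := hs.eig u hu a ha x
    rwa [hx] at this
  have q2 : Pr a u (DS S Γ u v x) = 0 := by
    simp only [DS, map_add, map_sub]
    rw [q1, hSx, hs.comm u hu a ha]
    simp
  calc g u (DS S Γ u v x) y = g u (DS S Γ u v x) (Pr a u y) := by rw [hy]
    _ = g u (Pr a u (DS S Γ u v x)) y := (hs.sa u hu a ha _ _).symm
    _ = 0 := by rw [q2]; simp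

theorem T_mult (h : Geo U k g S T ν Γ) (hs : Spec U g S Λ Λs Pr) (hk : k ≠ 0) {u : E}
    (hu : u ∈ U) (hν : ν u ≠ 0) {a : ℝ} (ha : a ∈ Λ) (hm : a ∉ Λs) : Pr a u (T u) = 0 := by
  by_contra ht
  obtain ⟨x, hx, hxn⟩ := hs.mult u hu a ha hm (Pr a u (T u))
  have htt : Pr a u (Pr a u (T u)) = Pr a u (T u) := hs.idem u hu a ha _
  have hc := h.cod u hu x (Pr a u (T u))
  set t := Pr a u (T u) with htd
  set y := g u (T u) t • x - g u (T u) x • t with hy
  have hyy : Pr a u y = y := by rw [hy, map_sub, map_smul, map_smul, hx, htt]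
  have h1 : g u (DS S Γ u x t) y = 0 := block h hs hu ha x htt hyy
  have h2 : g u (DS S Γ u t x) y = 0 := block h hs hu ha t hx hyy
  have h3 : g u (DS S Γ u x t - DS S Γ u t x) y = 0 := by
    rw [map_sub (g u), ContinuousLinearMap.sub_apply, h1, h2, sub_zero]
  rw [hc] at h3
  rw [map_smul (g u), ContinuousLinearMap.smul_apply, smul_eq_mul] at h3
  have h4 : g u y y = 0 := by
    rcases mul_eq_zero.1 h3 with h5 | h5
    · exact absurd h5 (mul_ne_zero hk hν)
    · exact h5
  have h5 : y = 0 := by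
    by_contra hne
    exact absurd h4 (h.pos u hu y hne).ne'
  have h6 : g u (T u) t = g u t t := by
    have := hs.sa u hu a ha (T u) t
    rw [htt] at this
    exact this.symm
  have h7 : g u t t ≠ 0 := (h.pos u hu t ht).ne'
  apply hxn ((g u (T u) t)⁻¹ * g u (T u) x)
  have h8 : g u (T u) t • x = g u (T u) x • t := by
    have := h5
    rw [hy] at this
    exact sub_eq_zero.1 this
  rw [mul_smul, ← h8, smul_smul, inv_mul_cancel₀ (by rw [h6]; exact h7), one_smul]

end Pool.Agent.QnR
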