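import Mathlib

/-!
# Two lemmas on functions (helper50)

* `quad_const`: functions `ξ_j` (`j ∈ J`, `J` a finite set of nonzero reals `κ`; the index is `κ_j`
  itself), differentiable on the open set `O` (smooth), with `∑ ξ_j = c` constant and
  `ξ_j + k κ_j ξ_j² = q` independent of `j`.  Then all the derivatives of `ξ_j` vanish on `O`.
  Proof.  If `J` is empty nothing to show.  `q` is smooth on `O`.  `η_j := 1 + 2 k κ_j ξ_j`, so
  `η_j² = 1 + 4 k κ_j q`.  Claim: `dq = 0` on `O`.  Otherwise `dq(u₀) v ≠ 0` for some `u₀ ∈ O`, `v`;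
  restrict everything to the line `t ↦ u₀ + t v`, `|t|` small, where `q' ≠ 0`.  `η_j ξ_j' = q'`
  (differentiate the relation), so `η_j ≠ 0` and `ξ_j' = q' a_j` with `a_j := 1 / η_j`; `∑ ξ_j' = 0` gives
  `∑ a_j = 0`.  `η_j' = 2 k κ_j ξ_j' = 2 k κ_j q' a_j`, so `a_j' = -2 k κ_j q' a_j³`, and
  `(κ_j^m a_j^(2m+1))' = -2 k (2m+1) q' κ_j^(m+1) a_j^(2m+3)`; so by induction on `m` (differentiating the
  identity on the interval and dividing by `-2 k (2m+1) q' ≠ 0`) `∑_j κ_j^m a_j^(2m+1) = 0` for all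
  `m`, i.e. `∑_j a_j y_j^m = 0`, `y_j = κ_j a_j²`.  The `y_j` are pairwise different, since
  `1 / y_j = η_j² / κ_j = 1 / κ_j + 4 k q`.  By the Vandermonde determinant all `a_j = 0`, a
  contradiction (`a_j = 1 / η_j`).
  So `dq = 0` on `O`, hence `η_j dξ_j = 0` on `O`.  At a point with `η_j ≠ 0` this gives `dξ_j = 0`.  At a
  point `u` with `η_j(u) = 0`: `q` is constant near `u` (zero derivative on a ball), so
  `η_j² = 1 + 4 k κ_j q` is constant, equal to `0`, near `u`, so `ξ_j = -1/(2 k κ_j)` near `u` and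
  `dξ_j(u) = 0`.
* `cauchy`: `∑_{a ∈ J} c_a / (a - b) = 0` for all `b ∈ B`, `B` disjoint from `J`, `card J ≤ card B`: the
  polynomial `∑_a c_a ∏_{a' ≠ a} (a' - X)` has degree `< card J` and the roots `b ∈ B`, so it is `0`; its
  value at `a` is `c_a ∏_{a' ≠ a} (a' - a)`.
-/

namespace Pool.Agent.QnR

open scoped BigOperators ContDiff

private theorem calc_vandermonde (J : Finset ℝ) (a y : ℝ → ℝ) (hy : Set.InjOn y J)
    (h : ∀ m : ℕ, ∑ κ ∈ J, a κ * (y κ) ^ m = 0) : ∀ κ ∈ J, a κ = 0 := by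
  classical
  have hp : ∀ P : Polynomial ℝ, ∑ κ ∈ J, a κ * P.eval (y κ) = 0 := by
    intro P
    simp only [Polynomial.eval_eq_sum_range, Finset.mul_sum]
    rw [Finset.sum_comm]
    refine Finset.sum_eq_zero fun i _ => ?_
    have : ∀ κ ∈ J, a κ * (P.coeff i * y κ ^ i) = P.coeff i * (a κ * y κ ^ i) := by
      intro κ _; ring
    rw [Finset.sum_congr rfl this, ← Finset.mul_sum, h i, mul_zero]
  intro κ hκ
  have h1 := hp (∏ κ' ∈ J.erase κ, (Polynomial.X - Polynomial.C (y κ')))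
  simp only [Polynomial.eval_prod, Polynomial.eval_sub, Polynomial.eval_X, Polynomial.eval_C] at h1
  rw [Finset.sum_eq_single κ] at h1
  · have h2 : ∏ κ' ∈ J.erase κ, (y κ - y κ') ≠ 0 := by
      rw [Finset.prod_ne_zero_iff]
      intro κ' hκ'
      rw [Finset.mem_erase] at hκ'
      intro h0
      exact hκ'.1 (hy hκ'.2 hκ (by linarith))
    exact (mul_eq_zero.1 h1).resolve_right h2
  · intro κ' hκ' hne
    rw [Finset.prod_eq_zero (f := fun x => y κ' - y x) (Finset.mem_erase.2 ⟨hne, hκ'⟩)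
      (sub_self _), mul_zero]
  · intro h0; exact absurd hκ h0

private theorem calc_pow (J : Finset ℝ) {k : ℝ} (hk : k ≠ 0) {I : Set ℝ} (hI : IsOpen I)
    (A : ℝ → ℝ → ℝ) (q' : ℝ → ℝ) (hq' : ∀ t ∈ I, q' t ≠ 0)
    (hA : ∀ κ ∈ J, ∀ t ∈ I, HasDerivAt (A κ) (-2 * k * κ * q' t * (A κ t) ^ 3) t)
    (h0 : ∀ t ∈ I, ∑ κ ∈ J, A κ t = 0) :
    ∀ m : ℕ, ∀ t ∈ I, ∑ κ ∈ J, κ ^ m * (A κ t) ^ (2 * m + 1) = 0 := by
  intro m
  induction m with
  | zero =>
    intro t ht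
    simpa using h0 t ht
  | succ m ih =>
    intro t ht
    have h1 : HasDerivAt (fun s => ∑ κ ∈ J, κ ^ m * (A κ s) ^ (2 * m + 1))
        (∑ κ ∈ J, κ ^ m * (((2 * m + 1 : ℕ) : ℝ) * (A κ t) ^ (2 * m) *
          (-2 * k * κ * q' t * (A κ t) ^ 3))) t := by
      refine HasDerivAt.fun_sum fun κ hκ => ?_
      exact ((hA κ hκ t ht).pow (2 * m + 1)).const_mul (κ ^ m)
    have h2 : (fun s => ∑ κ ∈ J, κ ^ m * (A κ s) ^ (2 * m + 1)) =ᶠ[nhds t] fun _ => 0 := by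
      filter_upwards [hI.mem_nhds ht] with s hs
      exact ih s hs
    have h3 := (h1.congr_of_eventuallyEq h2.symm).unique (hasDerivAt_const t 0)
    have h4 : ∑ κ ∈ J, κ ^ m * (((2 * m + 1 : ℕ) : ℝ) * (A κ t) ^ (2 * m) *
          (-2 * k * κ * q' t * (A κ t) ^ 3)) =
        (((2 * m + 1 : ℕ) : ℝ) * (-2 * k * q' t)) *
          ∑ κ ∈ J, κ ^ (m + 1) * (A κ t) ^ (2 * (m + 1) + 1) := by
      rw [Finset.mul_sum]
      refine Finset.sum_congr rfl fun κ _ => ?_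
      ring
    rw [h4] at h3
    refine (mul_eq_zero.1 h3).resolve_left ?_
    refine mul_ne_zero ?_ (mul_ne_zero (mul_ne_zero (by norm_num) hk) (hq' t ht))
    positivity

theorem quad_const {E : Type*} [NormedAddCommGroup E] [NormedSpace ℝ E] [FiniteDimensional ℝ E]
    {O : Set E} (hO : IsOpen O) {k : ℝ} (hk : k ≠ 0) (J : Finset ℝ) (hJ : ∀ κ ∈ J, κ ≠ 0)
    (ξ : ℝ → E → ℝ) (hξ : ∀ κ ∈ J, ContDiffOn ℝ ∞ (ξ κ) O) (c : ℝ)
    (hc : ∀ u ∈ O, ∑ κ ∈ J, ξ κ u = c)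
    (hq : ∀ u ∈ O, ∃ q : ℝ, ∀ κ ∈ J, ξ κ u + k * κ * (ξ κ u) ^ 2 = q) :
    ∀ κ ∈ J, ∀ u ∈ O, fderiv ℝ (ξ κ) u = 0 := by
  classical
  intro κ₀ hκ₀
  obtain ⟨q, hqd⟩ : ∃ q : E → ℝ, q = fun u => ξ κ₀ u + k * κ₀ * (ξ κ₀ u) ^ 2 := ⟨_, rfl⟩
  have hqe : ∀ u ∈ O, ∀ κ ∈ J, ξ κ u + k * κ * (ξ κ u) ^ 2 = q u := by
    intro u hu κ hκ
    obtain ⟨r, hr⟩ := hq u hu
    rw [hqd, hr κ hκ]
    exact (hr κ₀ hκ₀).symm
  have hdiff : ∀ κ ∈ J, ∀ u ∈ O, HasFDerivAt (ξ κ) (fderiv ℝ (ξ κ) u) u := by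
    intro κ hκ u hu
    exact (((hξ κ hκ).contDiffAt (hO.mem_nhds hu)).differentiableAt (by simp)).hasFDerivAt
  have hqs : ContDiffOn ℝ ∞ q O := by
    rw [hqd]
    exact (hξ κ₀ hκ₀).add (contDiffOn_const.mul ((hξ κ₀ hκ₀).pow 2))
  have hqdiff : ∀ u ∈ O, HasFDerivAt q (fderiv ℝ q u) u := by
    intro u hu
    exact ((hqs.contDiffAt (hO.mem_nhds hu)).differentiableAt (by simp)).hasFDerivAt
  -- the relation between the derivatives
  have hrel : ∀ κ ∈ J, ∀ u ∈ O, ∀ v, (1 + 2 * k * κ * ξ κ u) * fderiv ℝ (ξ κ) u v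
      = fderiv ℝ q u v := by
    intro κ hκ u hu v
    have h1 := (hdiff κ hκ u hu).add (((hdiff κ hκ u hu).pow 2).const_mul (k * κ))
    have h2 : (fun w => ξ κ w + k * κ * (ξ κ w) ^ 2) =ᶠ[nhds u] q := by
      filter_upwards [hO.mem_nhds hu] with w hw
      exact hqe w hw κ hκ
    have h3 := (h1.congr_of_eventuallyEq h2.symm).unique (hqdiff u hu)
    have h4 := congrArg (fun L => L v) h3
    rw [← h4]
    simp
    ring
  have hsum : ∀ u ∈ O, ∀ v, ∑ κ ∈ J, fderiv ℝ (ξ κ) u v = 0 := by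
    intro u hu v
    have h1 : HasFDerivAt (fun w => ∑ κ ∈ J, ξ κ w) (∑ κ ∈ J, fderiv ℝ (ξ κ) u) u :=
      HasFDerivAt.fun_sum (fun κ hκ => hdiff κ hκ u hu)
    have h2 : (fun w => ∑ κ ∈ J, ξ κ w) =ᶠ[nhds u] fun _ => c := by
      filter_upwards [hO.mem_nhds hu] with w hw
      exact hc w hw
    have h3 := (h1.congr_of_eventuallyEq h2.symm).unique (hasFDerivAt_const c u)
    have h4 := congrArg (fun L => L v) h3
    simpa using h4
  -- the derivative of q vanishes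
  have hdq : ∀ u ∈ O, ∀ v, fderiv ℝ q u v = 0 := by
    intro u₀ hu₀ v
    by_contra hne
    have hfc : ContinuousOn (fun u => fderiv ℝ q u v) O := by
      have h1 : ContinuousOn (fderiv ℝ q) O :=
        hqs.continuousOn_fderiv_of_isOpen hO (by simp)
      exact h1.clm_apply continuousOn_const
    have hVo : IsOpen (O ∩ (fun u => fderiv ℝ q u v) ⁻¹' {0}ᶜ) :=
      hfc.isOpen_inter_preimage hO isOpen_compl_singleton
    obtain ⟨γ, hγd⟩ : ∃ γ : ℝ → E, γ = fun t => u₀ + t • v := ⟨_, rfl⟩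
    have hγc : Continuous γ := by rw [hγd]; fun_prop
    have hγ' : ∀ t, HasDerivAt γ v t := by
      intro t
      rw [hγd]
      have h1 : HasDerivAt (fun t : ℝ => t • v) ((1 : ℝ) • v) t := (hasDerivAt_id t).smul_const v
      rw [one_smul] at h1
      exact h1.const_add u₀
    have hγ0 : γ 0 = u₀ := by rw [hγd]; simp
    have hIo : IsOpen (γ ⁻¹' (O ∩ (fun u => fderiv ℝ q u v) ⁻¹' {0}ᶜ)) := hVo.preimage hγc
    obtain ⟨I, hId⟩ : ∃ I : Set ℝ, I = γ ⁻¹' (O ∩ (fun u => fderiv ℝ q u v) ⁻¹' {0}ᶜ) := ⟨_, rfl⟩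
    rw [← hId] at hIo
    have hI1 : ∀ t ∈ I, γ t ∈ O := by
      intro t ht
      rw [hId] at ht
      exact ht.1
    have hI2 : ∀ t ∈ I, fderiv ℝ q (γ t) v ≠ 0 := by
      intro t ht
      rw [hId] at ht
      exact ht.2
    have h0I : (0 : ℝ) ∈ I := by
      rw [hId, Set.mem_preimage, hγ0]
      exact ⟨hu₀, hne⟩
    have hη : ∀ κ ∈ J, ∀ t ∈ I, 1 + 2 * k * κ * ξ κ (γ t) ≠ 0 := by
      intro κ hκ t ht h
      have := hrel κ hκ (γ t) (hI1 t ht) v
      rw [h, zero_mul] at this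
      exact hI2 t ht this.symm
    have hX : ∀ κ ∈ J, ∀ t ∈ I,
        HasDerivAt (fun s => ξ κ (γ s)) (fderiv ℝ (ξ κ) (γ t) v) t := by
      intro κ hκ t ht
      exact (hdiff κ hκ (γ t) (hI1 t ht)).comp_hasDerivAt t (hγ' t)
    have hXe : ∀ κ ∈ J, ∀ t ∈ I, fderiv ℝ (ξ κ) (γ t) v =
        fderiv ℝ q (γ t) v * (1 + 2 * k * κ * ξ κ (γ t))⁻¹ := by
      intro κ hκ t ht
      rw [← hrel κ hκ (γ t) (hI1 t ht) v]
      field_simp [hη κ hκ t ht]
    have hA : ∀ κ ∈ J, ∀ t ∈ I, HasDerivAt (fun s => (1 + 2 * k * κ * ξ κ (γ s))⁻¹)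
        (-2 * k * κ * fderiv ℝ q (γ t) v * ((1 + 2 * k * κ * ξ κ (γ t))⁻¹) ^ 3) t := by
      intro κ hκ t ht
      have h1 := (((hX κ hκ t ht).const_mul (2 * k * κ)).const_add 1).fun_inv (hη κ hκ t ht)
      rw [hXe κ hκ t ht] at h1
      refine h1.congr_deriv ?_
      have := hη κ hκ t ht
      field_simp
    have h0 : ∀ t ∈ I, ∑ κ ∈ J, (1 + 2 * k * κ * ξ κ (γ t))⁻¹ = 0 := by
      intro t ht
      have h1 := hsum (γ t) (hI1 t ht) v
      rw [Finset.sum_congr rfl (fun κ hκ => hXe κ hκ t ht), ← Finset.mul_sum] at h1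
      exact (mul_eq_zero.1 h1).resolve_left (hI2 t ht)
    have h3 := calc_pow J hk hIo (fun κ t => (1 + 2 * k * κ * ξ κ (γ t))⁻¹)
      (fun t => fderiv ℝ q (γ t) v) hI2 hA h0
    have h4 := calc_vandermonde J (fun κ => (1 + 2 * k * κ * ξ κ (γ 0))⁻¹)
      (fun κ => κ * ((1 + 2 * k * κ * ξ κ (γ 0))⁻¹) ^ 2) ?_ ?_ κ₀ hκ₀
    · exact inv_ne_zero (hη κ₀ hκ₀ 0 h0I) h4
    · intro κ₁ h₁ κ₂ h₂ he
      rw [Finset.mem_coe] at h₁ h₂
      have a1 := hη κ₁ h₁ 0 h0I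
      have a2 := hη κ₂ h₂ 0 h0I
      have b1 := hJ κ₁ h₁
      have b2 := hJ κ₂ h₂
      have c1 := hqe (γ 0) (hI1 0 h0I) κ₁ h₁
      have c2 := hqe (γ 0) (hI1 0 h0I) κ₂ h₂
      have d1 : (1 + 2 * k * κ₁ * ξ κ₁ (γ 0)) ^ 2 = 1 + 4 * k * κ₁ * q (γ 0) := by
        rw [← c1]; ring
      have d2 : (1 + 2 * k * κ₂ * ξ κ₂ (γ 0)) ^ 2 = 1 + 4 * k * κ₂ * q (γ 0) := by
        rw [← c2]; ring
      have e1 : κ₁ * (1 + 2 * k * κ₂ * ξ κ₂ (γ 0)) ^ 2 = κ₂ * (1 + 2 * k * κ₁ * ξ κ₁ (γ 0)) ^ 2 := by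
        simp only [inv_pow] at he
        rw [← div_eq_mul_inv, ← div_eq_mul_inv, div_eq_div_iff (pow_ne_zero 2 a1)
          (pow_ne_zero 2 a2)] at he
        exact he
      rw [d1, d2] at e1
      linarith
    · intro m
      refine Eq.trans ?_ (h3 m 0 h0I)
      refine Finset.sum_congr rfl fun κ _ => ?_
      ring
  -- conclusion
  intro u hu
  by_contra hne
  have hfc : ContinuousOn (fderiv ℝ (ξ κ₀)) O :=
    (hξ κ₀ hκ₀).continuousOn_fderiv_of_isOpen hO (by simp)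
  have hVo : IsOpen (O ∩ (fderiv ℝ (ξ κ₀)) ⁻¹' {0}ᶜ) :=
    hfc.isOpen_inter_preimage hO isOpen_compl_singleton
  have hev : (ξ κ₀) =ᶠ[nhds u] fun _ => -(2 * k * κ₀)⁻¹ := by
    filter_upwards [hVo.mem_nhds ⟨hu, hne⟩] with w hw
    obtain ⟨v, hv⟩ : ∃ v, fderiv ℝ (ξ κ₀) w v ≠ 0 := by
      by_contra hcon
      push Not at hcon
      exact hw.2 (ContinuousLinearMap.ext hcon)
    have h1 := hrel κ₀ hκ₀ w hw.1 v
    rw [hdq w hw.1 v] at h1
    have h2 := (mul_eq_zero.1 h1).resolve_right hv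
    have h3 : 2 * k * κ₀ ≠ 0 := mul_ne_zero (mul_ne_zero two_ne_zero hk) (hJ κ₀ hκ₀)
    have h4 : (2 * k * κ₀) * ξ κ₀ w = (2 * k * κ₀) * -(2 * k * κ₀)⁻¹ := by
      rw [mul_neg, mul_inv_cancel₀ h3]
      linarith
    exact mul_left_cancel₀ h3 h4
  apply hne
  rw [hev.fderiv_eq]
  simp

theorem cauchy (J B : Finset ℝ) (hd : Disjoint J B) (hcard : J.card ≤ B.card) (c : ℝ → ℝ)
    (h : ∀ b ∈ B, ∑ a ∈ J, (a - b)⁻¹ * c a = 0) : ∀ a ∈ J, c a = 0 := by
  classical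
  obtain ⟨P, hP⟩ : ∃ P : Polynomial ℝ, P = ∑ a ∈ J, Polynomial.C (c a) *
      ∏ a' ∈ J.erase a, (Polynomial.C a' - Polynomial.X) := ⟨_, rfl⟩
  have hev : ∀ x : ℝ, P.eval x = ∑ a ∈ J, c a * ∏ a' ∈ J.erase a, (a' - x) := by
    intro x
    rw [hP, Polynomial.eval_finsetSum]
    refine Finset.sum_congr rfl fun a _ => ?_
    rw [Polynomial.eval_mul, Polynomial.eval_C, Polynomial.eval_prod]
    simp
  have hP0 : P = 0 := by
    refine Polynomial.eq_zero_of_degree_lt_of_eval_finset_eq_zero B ?_ ?_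
    · rcases J.eq_empty_or_nonempty with hE | hE
      · rw [hP, hE, Finset.sum_empty, Polynomial.degree_zero]
        exact WithBot.bot_lt_coe _
      · refine lt_of_lt_of_le ?_ (Nat.cast_le.2 hcard)
        rw [hP]
        refine lt_of_le_of_lt (Polynomial.degree_sum_le _ _) ?_
        rw [Finset.sup_lt_iff (WithBot.bot_lt_coe _)]
        intro a ha
        refine lt_of_le_of_lt (Polynomial.degree_mul_le _ _) ?_
        have h1 : (Polynomial.C (c a)).degree ≤ 0 := Polynomial.degree_C_le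
        have h2 : (∏ a' ∈ J.erase a, (Polynomial.C a' - Polynomial.X)).degree ≤
            ((J.card - 1 : ℕ) : WithBot ℕ) := by
          refine (Polynomial.degree_prod_le _ _).trans ?_
          have h3 : ∑ a' ∈ J.erase a, (Polynomial.C a' - Polynomial.X).degree ≤
              ∑ _a' ∈ J.erase a, (1 : WithBot ℕ) := by
            refine Finset.sum_le_sum fun a' _ => ?_
            refine (Polynomial.degree_sub_le _ _).trans ?_
            exact max_le (Polynomial.degree_C_le.trans zero_le_one) Polynomial.degree_X_le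
          refine h3.trans ?_
          rw [Finset.sum_const, Finset.card_erase_of_mem ha, nsmul_eq_mul, mul_one]
        have h4 : (Polynomial.C (c a)).degree +
            (∏ a' ∈ J.erase a, (Polynomial.C a' - Polynomial.X)).degree ≤
            ((J.card - 1 : ℕ) : WithBot ℕ) := by
          refine (add_le_add h1 h2).trans ?_
          rw [zero_add]
        refine lt_of_le_of_lt h4 ?_
        have : J.card - 1 < J.card := Nat.sub_lt (Finset.card_pos.2 hE) one_pos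
        exact_mod_cast this
    · intro b hb
      rw [hev]
      have hb' : ∀ a ∈ J, a - b ≠ 0 := by
        intro a ha h0
        have : a = b := by linarith
        exact (Finset.disjoint_left.1 hd) ha (this ▸ hb)
      have h1 : ∀ a ∈ J, c a * ∏ a' ∈ J.erase a, (a' - b) =
          (∏ a' ∈ J, (a' - b)) * ((a - b)⁻¹ * c a) := by
        intro a ha
        rw [← Finset.mul_prod_erase J _ ha]
        field_simp [hb' a ha]
      rw [Finset.sum_congr rfl h1, ← Finset.mul_sum, h b hb, mul_zero]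
  intro a ha
  have h1 := hev a
  rw [hP0, Polynomial.eval_zero, Finset.sum_eq_single a] at h1
  · have h2 : ∏ a' ∈ J.erase a, (a' - a) ≠ 0 := by
      rw [Finset.prod_ne_zero_iff]
      intro a' ha'
      exact sub_ne_zero.2 (Finset.ne_of_mem_erase ha')
    exact (mul_eq_zero.1 h1.symm).resolve_right h2
  · intro b hb hba
    rw [Finset.prod_eq_zero (f := fun x => x - a) (Finset.mem_erase.2 ⟨hba.symm, ha⟩)
      (sub_self a), mul_zero]
  · intro h; exact absurd ha h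

end Pool.Agent.QnR
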