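import Mathlib
import Pool.Agent.CPC.Def

/-!
# Hypersurfaces of `Q × ℝ` with constant principal curvatures: intrinsic data (helper50)

`Q` is a space form of curvature `k`, `M` a hypersurface of `Q × ℝ` with unit normal `N`, `∂` the unit
vector field of the line, `∂ = T + ν N` with `T` tangent to `M`.  The data `g` (metric), `S` (shape
operator), `T`, `ν` and `Γ` (Christoffel operator of the Levi-Civita connection, which is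
`∇_v Y = D_v Y + Γ(v, Y)`) satisfy `∇_v T = ν S v`, `dν(v) = -g(T, S v)`, `g(T, T) = 1 - ν²` and the Codazzi
equation `(∇_v S) w - (∇_w S) v = k ν (g(T, w) v - g(T, v) w)`.
-/

namespace Pool.Agent.QnR

open scoped BigOperators ContDiff

variable {E : Type*} [NormedAddCommGroup E] [NormedSpace ℝ E]

/-- `(∇_v S) w` at the point `u`. -/
noncomputable def DS (S : E → E →L[ℝ] E) (Γ : E → E →L[ℝ] E →L[ℝ] E) (u v w : E) : E :=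
  fderiv ℝ S u v w + Γ u v (S u w) - S u (Γ u v w)

/-- Intrinsic data of a hypersurface of `Q × ℝ`. -/
structure Geo (U : Set E) (k : ℝ) (g : E → E →L[ℝ] E →L[ℝ] ℝ) (S : E → E →L[ℝ] E) (T : E → E)
    (ν : E → ℝ) (Γ : E → E →L[ℝ] E →L[ℝ] E) : Prop where
  op : IsOpen U
  smg : ContDiffOn ℝ ∞ g U
  smS : ContDiffOn ℝ ∞ S U
  smT : ContDiffOn ℝ ∞ T U
  smν : ContDiffOn ℝ ∞ ν U
  symm : ∀ u ∈ U, ∀ v w, g u v w = g u w v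
  pos : ∀ u ∈ U, ∀ v, v ≠ 0 → 0 < g u v v
  gam : ∀ u ∈ U, ∀ v w, Γ u v w = Γ u w v
  dg : ∀ u ∈ U, ∀ v w z, fderiv ℝ g u v w z = g u (Γ u v w) z + g u w (Γ u v z)
  sa : ∀ u ∈ U, ∀ v w, g u (S u v) w = g u v (S u w)
  dT : ∀ u ∈ U, ∀ v, fderiv ℝ T u v + Γ u v (T u) = ν u • S u v
  dν : ∀ u ∈ U, ∀ v, fderiv ℝ ν u v = -(g u (T u) (S u v))
  TT : ∀ u ∈ U, g u (T u) (T u) = 1 - ν u ^ 2
  cod : ∀ u ∈ U, ∀ v w, DS S Γ u v w - DS S Γ u w v =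
    (k * ν u) • (g u (T u) w • v - g u (T u) v • w)

/-- Spectral projections of `S`: `Λ` the set of eigenvalues, `Λs` the set of simple eigenvalues,
`Pr a u` the projection to the eigenspace of `a` at `u`. -/
structure Spec (U : Set E) (g : E → E →L[ℝ] E →L[ℝ] ℝ) (S : E → E →L[ℝ] E) (Λ Λs : Finset ℝ)
    (Pr : ℝ → E → E →L[ℝ] E) : Prop where
  sub : Λs ⊆ Λ
  sm : ∀ a ∈ Λ, ContDiffOn ℝ ∞ (Pr a) U
  sum : ∀ u ∈ U, ∀ x, ∑ a ∈ Λ, Pr a u x = x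
  idem : ∀ u ∈ U, ∀ a ∈ Λ, ∀ x, Pr a u (Pr a u x) = Pr a u x
  orth : ∀ u ∈ U, ∀ a ∈ Λ, ∀ b ∈ Λ, a ≠ b → ∀ x, Pr a u (Pr b u x) = 0
  eig : ∀ u ∈ U, ∀ a ∈ Λ, ∀ x, S u (Pr a u x) = a • Pr a u x
  comm : ∀ u ∈ U, ∀ a ∈ Λ, ∀ x, Pr a u (S u x) = a • Pr a u x
  sa : ∀ u ∈ U, ∀ a ∈ Λ, ∀ x y, g u (Pr a u x) y = g u x (Pr a u y)
  ex : ∀ u ∈ U, ∀ a ∈ Λ, ∃ x, x ≠ 0 ∧ Pr a u x = x
  mult : ∀ u ∈ U, ∀ a ∈ Λ, a ∉ Λs → ∀ y, ∃ x, Pr a u x = x ∧ ∀ c : ℝ, x ≠ c • y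

/-- the square of the length of the component of `T` in the eigenspace of `a`. -/
noncomputable def xx (g : E → E →L[ℝ] E →L[ℝ] ℝ) (T : E → E) (Pr : ℝ → E → E →L[ℝ] E) (a : ℝ)
    (u : E) : ℝ := g u (Pr a u (T u)) (Pr a u (T u))

/-- the vector `w = (S - b)⁻¹ T`, if the components of `T` outside the eigenspaces of `J` vanish. -/
noncomputable def ww (T : E → E) (Pr : ℝ → E → E →L[ℝ] E) (J : Finset ℝ) (b : ℝ) (u : E) : E :=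
  ∑ a ∈ J, (a - b)⁻¹ • Pr a u (T u)

end Pool.Agent.QnR
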