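import Pool.Agent.QnR.Block

/-!
# The two first order relations (helper50)

Let `O ⊆ U` be open, `ν ≠ 0` on `O`, `J ⊆ Λ`, `b ∈ Λ \ J`, and `Pr a T = 0` on `O` for `a ∈ Λ \ J`.
`w = ww T Pr J b`, `D := DS S Γ u`.  At the points of `O`:
* `(S - b) w = ∑_{a ∈ J} Pr a T = T` (`eig`, `sum`), and `Pr b w = 0` (`orth`).
* for fixed `v`, differentiate `T = S w - b w` (valid on the open set `O`; `w` is differentiable):
  with `∇_v w := (∂_v w) + Γ_v w` and `dT`: `ν S v = D v w + S (∇_v w) - b ∇_v w`.  (1)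
* `rel_one`: let `x ≠ 0`, `Pr b x = x` (`ex`).  Take (1) for `v = x` and apply `g(·, x)`:
  `ν b g(x, x) = g(D x w, x) + g((S - b) ∇_x w, x)`, the last term is `g(∇_x w, (S - b) x) = 0` (`sa`,
  `S x = b x` by `eig`).  `cod`: `D x w = D w x + k ν (g(T, w) x - g(T, x) w)`; `g(D w x, x) = 0`
  (`block`), `g(T, x) = g(T, Pr b x) = g(Pr b T, x) = 0`.  So `ν b g(x,x) = k ν g(T, w) g(x, x)`, and
  `ν ≠ 0`, `g(x, x) > 0`.
* `rel_two`: differentiate `k g(T, w) = b` (valid on `O`) in the direction `v`; with `dg`, `dT`: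
  `0 = k (g(ν S v, w) + g(T, ∇_v w))`; `k ≠ 0`, and `g(T, ∇_v w) = g((S - b) w, ∇_v w)
  = g(w, (S - b) ∇_v w) = g(w, ν S v - D v w)` by (1).  So `g(w, D v w) = 2 ν g(S v, w)`.
* `g_T_ww`: `g(T, w) = ∑_{a ∈ J} (a - b)⁻¹ g(T, Pr a T)` and `g(T, Pr a T) = g(T, Pr a (Pr a T))
  = g(Pr a T, Pr a T)`.
-/

namespace Pool.Agent.QnR

open scoped BigOperators ContDiff

variable {E : Type*} [NormedAddCommGroup E] [NormedSpace ℝ E] [FiniteDimensional ℝ E]
  {U : Set E} {k : ℝ} {g : E → E →L[ℝ] E →L[ℝ] ℝ} {S : E → E →L[ℝ] E} {T : E → E}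
  {ν : E → ℝ} {Γ : E → E →L[ℝ] E →L[ℝ] E} {Λ Λs : Finset ℝ} {Pr : ℝ → E → E →L[ℝ] E}

private lemma smAt {F : Type*} [NormedAddCommGroup F] [NormedSpace ℝ F] {f : E → F}
    (hU : IsOpen U) (hf : ContDiffOn ℝ ∞ f U) {u : E} (hu : u ∈ U) : DifferentiableAt ℝ f u :=
  (hf.differentiableOn (by simp)).differentiableAt (hU.mem_nhds hu)

private lemma ww_diff (h : Geo U k g S T ν Γ) (hs : Spec U g S Λ Λs Pr) {u : E} (hu : u ∈ U)
    {J : Finset ℝ} (hJ : J ⊆ Λ) (b : ℝ) : DifferentiableAt ℝ (ww T Pr J b) u := by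
  have h1 : ww T Pr J b = fun u => ∑ a ∈ J, (a - b)⁻¹ • Pr a u (T u) := rfl
  rw [h1]
  refine DifferentiableAt.fun_sum fun a ha => ?_
  exact DifferentiableAt.const_smul
    ((smAt h.op (hs.sm a (hJ ha)) hu).clm_apply (smAt h.op h.smT hu)) _

private lemma S_ww (hs : Spec U g S Λ Λs Pr) {u : E} (hu : u ∈ U)
    {J : Finset ℝ} (hJ : J ⊆ Λ) {b : ℝ} (hbJ : b ∉ J)
    (hT : ∀ a ∈ Λ, a ∉ J → Pr a u (T u) = 0) :
    S u (ww T Pr J b u) - b • ww T Pr J b u = T u := by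
  unfold ww
  rw [map_sum, Finset.smul_sum, ← Finset.sum_sub_distrib]
  have h1 : ∀ a ∈ J, S u ((a - b)⁻¹ • Pr a u (T u)) - b • (a - b)⁻¹ • Pr a u (T u) =
      Pr a u (T u) := by
    intro a ha
    have hab : a - b ≠ 0 := by
      rw [sub_ne_zero]
      rintro rfl
      exact hbJ ha
    rw [map_smul, hs.eig u hu a (hJ ha), smul_smul, smul_smul, ← sub_smul]
    have h2 : (a - b)⁻¹ * a - b * (a - b)⁻¹ = 1 := by
      field_simp
    rw [h2, one_smul]
  rw [Finset.sum_congr rfl h1]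
  exact (Finset.sum_subset hJ fun a ha haJ => hT a ha haJ).trans (hs.sum u hu (T u))

/-- the derivative of `T = (S - b) w` -/
private lemma key_one (h : Geo U k g S T ν Γ) (hs : Spec U g S Λ Λs Pr) {O : Set E}
    (hO : IsOpen O) (hOU : O ⊆ U) {J : Finset ℝ} (hJ : J ⊆ Λ) {b : ℝ}
    (hbJ : b ∉ J) (hT : ∀ u ∈ O, ∀ a ∈ Λ, a ∉ J → Pr a u (T u) = 0) {u : E} (hu : u ∈ O) (v : E) :
    ν u • S u v = DS S Γ u v (ww T Pr J b u) +
      S u (fderiv ℝ (ww T Pr J b) u v + Γ u v (ww T Pr J b u)) -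
      b • (fderiv ℝ (ww T Pr J b) u v + Γ u v (ww T Pr J b u)) := by
  have hu' := hOU hu
  have hw := ww_diff h hs hu' hJ b
  have hS := smAt h.op h.smS hu'
  have h1 : T =ᶠ[nhds u] fun y => S y (ww T Pr J b y) - b • ww T Pr J b y := by
    filter_upwards [hO.mem_nhds hu] with y hy
    exact (S_ww hs (hOU hy) hJ hbJ (hT y hy)).symm
  have h2 : HasFDerivAt (fun y => S y (ww T Pr J b y) - b • ww T Pr J b y)
      (((S u).comp (fderiv ℝ (ww T Pr J b) u) + (fderiv ℝ S u).flip (ww T Pr J b u)) -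
        b • fderiv ℝ (ww T Pr J b) u) u :=
    (hS.hasFDerivAt.clm_apply hw.hasFDerivAt).sub (hw.hasFDerivAt.const_smul b)
  have h3 : fderiv ℝ T u v = S u (fderiv ℝ (ww T Pr J b) u v) +
      fderiv ℝ S u v (ww T Pr J b u) - b • fderiv ℝ (ww T Pr J b) u v := by
    rw [h1.fderiv_eq, h2.fderiv]
    simp
  have h4 := h.dT u hu' v
  have h5 := S_ww hs hu' hJ hbJ (hT u hu)
  have h6 : Γ u v (T u) = Γ u v (S u (ww T Pr J b u)) - b • Γ u v (ww T Pr J b u) := by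
    conv_lhs => rw [← h5]
    rw [map_sub, map_smul]
  rw [← h4, h3, h6]
  unfold DS
  rw [map_add, smul_add]
  abel

theorem g_T_ww (h : Geo U k g S T ν Γ) (hs : Spec U g S Λ Λs Pr) {u : E} (hu : u ∈ U)
    {J : Finset ℝ} (hJ : J ⊆ Λ) (b : ℝ) :
    g u (T u) (ww T Pr J b u) = ∑ a ∈ J, (a - b)⁻¹ * xx g T Pr a u := by
  have h1 : g u (T u) (ww T Pr J b u) = ∑ a ∈ J, (a - b)⁻¹ * g u (T u) (Pr a u (T u)) := by
    unfold ww
    rw [map_sum]
    refine Finset.sum_congr rfl fun a _ => ?_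
    rw [map_smul, smul_eq_mul]
  rw [h1]
  refine Finset.sum_congr rfl fun a ha => ?_
  unfold xx
  rw [hs.sa u hu a (hJ ha), hs.idem u hu a (hJ ha)]

theorem rel_one (h : Geo U k g S T ν Γ) (hs : Spec U g S Λ Λs Pr) {O : Set E} (hO : IsOpen O)
    (hOU : O ⊆ U) (hν : ∀ u ∈ O, ν u ≠ 0) {J : Finset ℝ} (hJ : J ⊆ Λ) {b : ℝ} (hb : b ∈ Λ)
    (hbJ : b ∉ J) (hT : ∀ u ∈ O, ∀ a ∈ Λ, a ∉ J → Pr a u (T u) = 0) {u : E} (hu : u ∈ O) :
    k * g u (T u) (ww T Pr J b u) = b := by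
  have hu' := hOU hu
  obtain ⟨x, hx0, hx⟩ := hs.ex u hu' b hb
  have hSx : S u x = b • x := by
    have := hs.eig u hu' b hb x
    rwa [hx] at this
  have h1 := key_one h hs hO hOU hJ hbJ hT hu x
  set w := ww T Pr J b u with hw
  set n := fderiv ℝ (ww T Pr J b) u x + Γ u x w with hn
  have h2 := congrArg (fun y => g u y x) h1
  simp only [map_add, map_sub, map_smul, ContinuousLinearMap.add_apply,
    ContinuousLinearMap.sub_apply, ContinuousLinearMap.smul_apply, smul_eq_mul] at h2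
  have h3 : g u (S u n) x = b * g u n x := by
    rw [h.sa u hu', hSx, map_smul, smul_eq_mul]
  have h4 : g u (S u x) x = b * g u x x := by
    rw [hSx, map_smul, ContinuousLinearMap.smul_apply, smul_eq_mul]
  rw [h3, h4] at h2
  have h5 : g u (T u) x = 0 := by
    have h6 := hs.sa u hu' b hb (T u) x
    rw [hT u hu b hb hbJ, hx, map_zero, ContinuousLinearMap.zero_apply] at h6
    exact h6.symm
  have h7 := h.cod u hu' x w
  have h8 := congrArg (fun y => g u y x) h7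
  have h9 : g u (DS S Γ u w x) x = 0 := block h hs hu' hb w hx hx
  simp only [map_sub, map_smul, ContinuousLinearMap.sub_apply, ContinuousLinearMap.smul_apply,
    smul_eq_mul] at h8
  rw [h9, h5] at h8
  have hp := h.pos u hu' x hx0
  have hν' := hν u hu
  have h10 : (ν u * g u x x) * (k * g u (T u) w - b) = 0 := by
    linear_combination -h2 - h8
  rcases mul_eq_zero.1 h10 with h11 | h11
  · exact absurd h11 (mul_ne_zero hν' hp.ne')
  · linarith

theorem rel_two (h : Geo U k g S T ν Γ) (hs : Spec U g S Λ Λs Pr) (hk : k ≠ 0) {O : Set E}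
    (hO : IsOpen O) (hOU : O ⊆ U) (hν : ∀ u ∈ O, ν u ≠ 0) {J : Finset ℝ} (hJ : J ⊆ Λ) {b : ℝ}
    (hb : b ∈ Λ) (hbJ : b ∉ J) (hT : ∀ u ∈ O, ∀ a ∈ Λ, a ∉ J → Pr a u (T u) = 0) {u : E}
    (hu : u ∈ O) (v : E) :
    g u (DS S Γ u v (ww T Pr J b u)) (ww T Pr J b u) =
      2 * ν u * g u (S u v) (ww T Pr J b u) := by
  have hu' := hOU hu
  have h1 := key_one h hs hO hOU hJ hbJ hT hu v
  have h5 := S_ww hs hu' hJ hbJ (hT u hu)
  have hwd := ww_diff h hs hu' hJ b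
  have hTd := smAt h.op h.smT hu'
  have hgd := smAt h.op h.smg hu'
  have hc : (fun y => g y (T y) (ww T Pr J b y)) =ᶠ[nhds u] fun _ => b / k := by
    filter_upwards [hO.mem_nhds hu] with y hy
    rw [eq_div_iff hk, mul_comm]
    exact rel_one h hs hO hOU hν hJ hb hbJ hT hy
  have h2 := (hgd.hasFDerivAt.clm_apply hTd.hasFDerivAt).clm_apply hwd.hasFDerivAt
  have h3 : fderiv ℝ (fun y => g y (T y) (ww T Pr J b y)) u v = 0 := by
    rw [hc.fderiv_eq]
    simp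
  rw [h2.fderiv] at h3
  simp only [ContinuousLinearMap.add_apply, ContinuousLinearMap.comp_apply,
    ContinuousLinearMap.flip_apply] at h3
  set w := ww T Pr J b u with hw
  set n' := fderiv ℝ (ww T Pr J b) u v with hn'
  have h4 := h.dT u hu' v
  have h6 := h.dg u hu' v (T u) w
  have h7 : fderiv ℝ T u v = ν u • S u v - Γ u v (T u) := by
    rw [← h4]
    abel
  rw [h7] at h3
  simp only [map_sub, map_smul, ContinuousLinearMap.sub_apply, ContinuousLinearMap.smul_apply,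
    smul_eq_mul] at h3
  rw [h6] at h3
  have h8 : g u (T u) (n' + Γ u v w) = g u w (ν u • S u v - DS S Γ u v w) := by
    have h9 : ν u • S u v - DS S Γ u v w = S u (n' + Γ u v w) - b • (n' + Γ u v w) := by
      rw [h1]
      abel
    rw [h9]
    conv_lhs => rw [← h5]
    rw [map_sub, map_smul, ContinuousLinearMap.sub_apply, ContinuousLinearMap.smul_apply,
      h.sa u hu', map_sub, map_smul]
  rw [map_add, map_sub, map_smul, smul_eq_mul] at h8
  have h10 := h.symm u hu' w (S u v)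
  have h11 := h.symm u hu' w (DS S Γ u v w)
  rw [h10, h11] at h8
  linarith

end Pool.Agent.QnR
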