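import Pool.Agent.QnR.Def

/-!
# Solving linear equations with a smooth metric (helper50)

`g u` is symmetric and positive definite for `u ∈ U`, so `g u : E →L (E →L ℝ)` is injective, hence
bijective (`E` is finite-dimensional, `dim (E →L ℝ) = dim E`).  The solution of `g u (T u) w = β u w` is
`T u = (g u)⁻¹ (β u)`; smooth because the inverse of a smooth family of invertible continuous linear
maps is smooth (`contDiffAt_map_inverse`, `ContinuousLinearMap.inverse`).  For the operator version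
`S u = (g u)⁻¹ ∘ b u`.  (`T u`, `S u` arbitrary outside `U`.)
-/

namespace Pool.Agent.QnR

open scoped BigOperators ContDiff

variable {E : Type*} [NormedAddCommGroup E] [NormedSpace ℝ E] [FiniteDimensional ℝ E]
  {U : Set E} {g : E → E →L[ℝ] E →L[ℝ] ℝ}

private theorem geoA_equiv {h : E →L[ℝ] E →L[ℝ] ℝ} (pos : ∀ v, v ≠ 0 → 0 < h v v) :
    ∃ e : E ≃L[ℝ] (E →L[ℝ] ℝ), (e : E →L[ℝ] (E →L[ℝ] ℝ)) = h := by
  have hinj : Function.Injective (h : E →ₗ[ℝ] (E →L[ℝ] ℝ)) := by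
    rw [← LinearMap.ker_eq_bot, LinearMap.ker_eq_bot']
    intro v hv
    by_contra hne
    have h1 := pos v hne
    have h2 : h v = 0 := hv
    rw [h2] at h1
    simp at h1
  have hdim : Module.finrank ℝ E = Module.finrank ℝ (E →L[ℝ] ℝ) := by
    rw [← LinearEquiv.finrank_eq (LinearMap.toContinuousLinearMap (𝕜 := ℝ) (E := E) (F' := ℝ))]
    exact (Subspace.dual_finrank_eq).symm
  refine ⟨((h : E →ₗ[ℝ] (E →L[ℝ] ℝ)).linearEquivOfInjective hinj hdim).toContinuousLinearEquiv, ?_⟩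
  ext v w
  rfl

private theorem geoA_inv (smg : ContDiffOn ℝ ∞ g U) (pos : ∀ u ∈ U, ∀ v, v ≠ 0 → 0 < g u v v) :
    ContDiffOn ℝ ∞ (fun u => ContinuousLinearMap.inverse (g u)) U := by
  intro u hu
  obtain ⟨e, he⟩ := geoA_equiv (pos u hu)
  have h2 := contDiffAt_map_inverse (n := ∞) e
  rw [he] at h2
  exact h2.comp_contDiffWithinAt u (smg u hu)

private theorem geoA_apply {h : E →L[ℝ] E →L[ℝ] ℝ} (pos : ∀ v, v ≠ 0 → 0 < h v v) (y : E →L[ℝ] ℝ) :
    h (ContinuousLinearMap.inverse h y) = y := by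
  obtain ⟨e, he⟩ := geoA_equiv pos
  rw [← he, ContinuousLinearMap.inverse_equiv]
  simp

theorem solve_fun (hU : IsOpen U) (smg : ContDiffOn ℝ ∞ g U)
    (pos : ∀ u ∈ U, ∀ v, v ≠ 0 → 0 < g u v v) (β : E → E →L[ℝ] ℝ) (smβ : ContDiffOn ℝ ∞ β U) :
    ∃ T : E → E, ContDiffOn ℝ ∞ T U ∧ ∀ u ∈ U, ∀ w, g u (T u) w = β u w := by
  refine ⟨fun u => ContinuousLinearMap.inverse (g u) (β u), (geoA_inv smg pos).clm_apply smβ, ?_⟩
  intro u hu w
  have h1 := geoA_apply (pos u hu) (β u)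
  change g u (ContinuousLinearMap.inverse (g u) (β u)) w = β u w
  rw [h1]

theorem solve_op (hU : IsOpen U) (smg : ContDiffOn ℝ ∞ g U)
    (pos : ∀ u ∈ U, ∀ v, v ≠ 0 → 0 < g u v v) (b : E → E →L[ℝ] E →L[ℝ] ℝ)
    (smb : ContDiffOn ℝ ∞ b U) :
    ∃ S : E → E →L[ℝ] E, ContDiffOn ℝ ∞ S U ∧ ∀ u ∈ U, ∀ v w, g u (S u v) w = b u v w := by
  refine ⟨fun u => (ContinuousLinearMap.inverse (g u)).comp (b u), (geoA_inv smg pos).clm_comp smb, ?_⟩
  intro u hu v w
  have h1 := geoA_apply (pos u hu) (b u v)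
  change g u (ContinuousLinearMap.inverse (g u) (b u v)) w = b u v w
  rw [h1]

end Pool.Agent.QnR
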