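import Pool.Agent.QnR.GeoA
import Pool.Agent.CPC.PtOf

/-!
# Metric, shape operator, vector field `T` (helper50)

Notation: `A = dX_u` (components `A v i ∈ W i`), `N = dξ_u`.
* `gm_apply`, `bm_apply`: unfold.  `gm_sm`, `bm_sm`: sums and compositions of smooth maps on the open
  set `U` (`fderiv ℝ X` is smooth on `U`; `ContinuousLinearMap.bilinearComp` is a continuous
  bilinear/linear construction; alternatively use that a map into `E →L E →L ℝ` is smooth iff all its
  values on a basis are: `contDiffOn_clm_apply`, applied twice, and then `gm_apply`).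
* `A_tan`: `k B(x, A v) = 0` (differentiate `k B(x, x) = 1`: `bil_const`, as in `ptData_of_hyp`).
  `cross`: `k (B(ξ, A v) + B(x, N v)) = 0` (differentiate `k B(x, ξ) = 0`).
  `N_xi`: `ip(ξ, N v) = 0` (differentiate `ip(ξ, ξ) = 1`).
* `gm_pos`: `A v ≠ 0` (`h.inj`), so some component is not zero; every `B(A v i, A v i) ≥ 0` with equality
  only if `A v i = 0` (`(F i).pos`, with the point `X u i`, `h.pt`, and `A_tan`).
* `first`: `S` from `solve_op` with `b = -bm F X ξ` (`bm F X ξ u v w = ip(N v, A w)`).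
  `IsShape`: `Z i := N v i + k_i B(ξ_i, A v i) x_i` is tangent: `k B(x, Z) = k B(x, N v) + k B(ξ, A v)
  (k B(x, x)) = 0` (`cross`; `k B(x, x) = 1` if `k ≠ 0`), and `ip(ξ, Z) = 0` (`N_xi`, `k B(x, ξ) = 0`), so
  `Z = A z` (`codim`); `g(z, w) = ip(Z, A w) = ip(N v, A w) = -g(S v, w)` (`k B(x, A w) = 0`), so `z = -S v`.
* `sa` for `S`: `ip(N v, A w) = -ip(ξ, D²X(v, w))` (`hyp_selfadj`), symmetric in `v, w`.
-/

namespace Pool.Agent.QnR

open scoped BigOperators ContDiff
open Pool.Agent.CPC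

variable {ι : Type*} [Fintype ι] {W : ι → Type*} [∀ i, NormedAddCommGroup (W i)]
  [∀ i, NormedSpace ℝ (W i)] {E : Type*} [NormedAddCommGroup E] [NormedSpace ℝ E]

/-- the component `i` of a linear map to the product. -/
noncomputable def cmp (L : E →L[ℝ] (∀ i, W i)) (i : ι) : E →L[ℝ] W i :=
  (ContinuousLinearMap.proj (R := ℝ) (φ := W) i).comp L

/-- the metric `ip(dX v, dX w)`. -/
noncomputable def gm (F : ∀ i, SF (W i)) (X : E → ∀ i, W i) (u : E) : E →L[ℝ] E →L[ℝ] ℝ :=
  ∑ i, (F i).B.bilinearComp (cmp (fderiv ℝ X u) i) (cmp (fderiv ℝ X u) i)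

/-- `ip(dξ v, dX w)`. -/
noncomputable def bm (F : ∀ i, SF (W i)) (X ξ : E → ∀ i, W i) (u : E) : E →L[ℝ] E →L[ℝ] ℝ :=
  ∑ i, (F i).B.bilinearComp (cmp (fderiv ℝ ξ u) i) (cmp (fderiv ℝ X u) i)

variable {F : ∀ i, SF (W i)} {U : Set E} {X ξ : E → ∀ i, W i}

omit [Fintype ι] in
theorem cmp_apply (L : E →L[ℝ] (∀ i, W i)) (i : ι) (v : E) : cmp L i v = L v i := rfl

theorem gm_apply (u v w : E) :
    gm F X u v w = ip F (fderiv ℝ X u v) (fderiv ℝ X u w) := by
  unfold gm ip
  rw [ContinuousLinearMap.sum_apply, ContinuousLinearMap.sum_apply]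
  exact Finset.sum_congr rfl fun i _ => rfl

theorem bm_apply (u v w : E) :
    bm F X ξ u v w = ip F (fderiv ℝ ξ u v) (fderiv ℝ X u w) := by
  unfold bm ip
  rw [ContinuousLinearMap.sum_apply, ContinuousLinearMap.sum_apply]
  exact Finset.sum_congr rfl fun i _ => rfl

theorem A_tan (h : IsHyp F U X ξ) {u : E} (hu : u ∈ U) (v : E) (i : ι) :
    (F i).k * (F i).B (X u i) (fderiv ℝ X u v i) = 0 := by
  have hU : U ∈ nhds u := h.op.mem_nhds hu
  have hX : DifferentiableAt ℝ X u := (h.smX.contDiffAt hU).differentiableAt (by simp)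
  by_cases hk : (F i).k = 0
  · rw [hk, zero_mul]
  · have h1 := bil_const (F i).B (hyp_comp hX i) (hyp_comp hX i) (k := (F i).k) (c := 1) (by
      filter_upwards [hU] with u' hu'
      exact h.pt u' hu' i hk) v
    simp only [ContinuousLinearMap.comp_apply, ContinuousLinearMap.proj_apply] at h1
    rw [(F i).symm (fderiv ℝ X u v i) (X u i)] at h1
    linarith

theorem cross (h : IsHyp F U X ξ) {u : E} (hu : u ∈ U) (v : E) (i : ι) :
    (F i).k * ((F i).B (ξ u i) (fderiv ℝ X u v i) + (F i).B (X u i) (fderiv ℝ ξ u v i)) = 0 := by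
  have hU : U ∈ nhds u := h.op.mem_nhds hu
  have hX : DifferentiableAt ℝ X u := (h.smX.contDiffAt hU).differentiableAt (by simp)
  have hN : DifferentiableAt ℝ ξ u := (h.smN.contDiffAt hU).differentiableAt (by simp)
  have h1 := bil_const (F i).B (hyp_comp hX i) (hyp_comp hN i) (k := (F i).k) (c := 0) (by
    filter_upwards [hU] with u' hu'
    exact h.tan u' hu' i) v
  simp only [ContinuousLinearMap.comp_apply, ContinuousLinearMap.proj_apply] at h1
  rw [(F i).symm (fderiv ℝ X u v i) (ξ u i)] at h1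
  exact h1

theorem N_xi (h : IsHyp F U X ξ) {u : E} (hu : u ∈ U) (v : E) :
    ip F (ξ u) (fderiv ℝ ξ u v) = 0 := by
  have hU : U ∈ nhds u := h.op.mem_nhds hu
  have hN : DifferentiableAt ℝ ξ u := (h.smN.contDiffAt hU).differentiableAt (by simp)
  have h1 : HasFDerivAt (fun u' => ∑ i, (F i).B (ξ u' i) (ξ u' i))
      (∑ i, ((F i).B.precompR E (ξ u i) ((ContinuousLinearMap.proj (R := ℝ) (φ := W) i).comp
          (fderiv ℝ ξ u)) +
        (F i).B.precompL E ((ContinuousLinearMap.proj (R := ℝ) (φ := W) i).comp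
          (fderiv ℝ ξ u)) (ξ u i))) u :=
    HasFDerivAt.fun_sum fun i _ =>
      (F i).B.hasFDerivAt_of_bilinear (hyp_comp hN i) (hyp_comp hN i)
  have h2 : (fun u' => ∑ i, (F i).B (ξ u' i) (ξ u' i)) =ᶠ[nhds u] fun _ => (1 : ℝ) := by
    filter_upwards [hU] with u' hu'
    exact h.unit u' hu'
  have h3 := h1.congr_of_eventuallyEq h2.symm
  have h4 := h3.unique (hasFDerivAt_const (1 : ℝ) u)
  have h5 := congrArg (fun T : E →L[ℝ] ℝ => T v) h4
  simp only [ContinuousLinearMap.sum_apply, ContinuousLinearMap.add_apply,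
    ContinuousLinearMap.precompR_apply, ContinuousLinearMap.precompL_apply,
    ContinuousLinearMap.zero_apply, Finset.sum_add_distrib, ContinuousLinearMap.compL_apply,
    ContinuousLinearMap.comp_apply, ContinuousLinearMap.proj_apply] at h5
  have h6 : ∑ i, (F i).B (fderiv ℝ ξ u v i) (ξ u i) = ∑ i, (F i).B (ξ u i) (fderiv ℝ ξ u v i) :=
    Finset.sum_congr rfl fun i _ => (F i).symm _ _
  rw [h6] at h5
  unfold ip
  linarith

theorem ip_symm (x y : ∀ i, W i) : ip F x y = ip F y x :=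
  Finset.sum_congr rfl fun i _ => (F i).symm _ _

theorem gm_symm (u v w : E) : gm F X u v w = gm F X u w v := by
  rw [gm_apply, gm_apply, ip_symm]

theorem gm_pos (h : IsHyp F U X ξ) {u : E} (hu : u ∈ U) {v : E} (hv : v ≠ 0) :
    0 < gm F X u v v := by
  rw [gm_apply]
  have h1 : fderiv ℝ X u v ≠ 0 := by
    intro h0
    apply hv
    apply h.inj u hu
    rw [h0, map_zero]
  obtain ⟨i, hi⟩ : ∃ i, fderiv ℝ X u v i ≠ 0 := by
    by_contra hcon
    push Not at hcon
    exact h1 (funext hcon)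
  unfold ip
  refine Finset.sum_pos' (fun j _ => ?_) ⟨i, Finset.mem_univ i, ?_⟩
  · by_cases h0 : fderiv ℝ X u v j = 0
    · rw [h0, map_zero]
    · exact ((F j).pos (X u j) (h.pt u hu j) _ (A_tan h hu v j) h0).le
  · exact (F i).pos (X u i) (h.pt u hu i) _ (A_tan h hu v i) hi

theorem fderiv_sm {V : Type*} [NormedAddCommGroup V] [NormedSpace ℝ V] {Y : E → V} (hU : IsOpen U)
    (hY : ContDiffOn ℝ ∞ Y U) : ContDiffOn ℝ ∞ (fderiv ℝ Y) U :=
  hY.fderiv_of_isOpen hU (by simp)

theorem cmp_sm {Y : E → ∀ i, W i} (hU : IsOpen U) (hY : ContDiffOn ℝ ∞ Y U) (i : ι) :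
    ContDiffOn ℝ ∞ (fun u => cmp (fderiv ℝ Y u) i) U :=
  contDiffOn_const.clm_comp (fderiv_sm hU hY)

theorem flip_sm {V V' : Type*} [NormedAddCommGroup V] [NormedSpace ℝ V] [NormedAddCommGroup V']
    [NormedSpace ℝ V'] : ContDiff ℝ ∞ (fun T : V' →L[ℝ] V →L[ℝ] ℝ => T.flip) := by
  have h : IsBoundedLinearMap ℝ (fun T : V' →L[ℝ] V →L[ℝ] ℝ => T.flip) :=
    { map_add := fun S T => rfl
      map_smul := fun c T => rfl
      bound := ⟨1, one_pos, fun T => by rw [ContinuousLinearMap.opNorm_flip, one_mul]⟩ }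
  exact h.contDiff

theorem bil_sm {V : Type*} [NormedAddCommGroup V] [NormedSpace ℝ V] (B : V →L[ℝ] V →L[ℝ] ℝ)
    {L M : E → E →L[ℝ] V} (hL : ContDiffOn ℝ ∞ L U) (hM : ContDiffOn ℝ ∞ M U) :
    ContDiffOn ℝ ∞ (fun u => B.bilinearComp (L u) (M u)) U := by
  have h1 : ContDiffOn ℝ ∞ (fun u => (B.comp (L u)).flip) U :=
    flip_sm.comp_contDiffOn (contDiffOn_const.clm_comp hL)
  have h2 : ContDiffOn ℝ ∞ (fun u => ((B.comp (L u)).flip.comp (M u)).flip) U :=
    flip_sm.comp_contDiffOn (h1.clm_comp hM)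
  exact h2

variable [FiniteDimensional ℝ E]

omit [FiniteDimensional ℝ E] in
theorem gm_sm (h : IsHyp F U X ξ) : ContDiffOn ℝ ∞ (gm F X) U := by
  unfold gm
  exact ContDiffOn.sum fun i _ => bil_sm (F i).B (cmp_sm h.op h.smX i) (cmp_sm h.op h.smX i)

omit [FiniteDimensional ℝ E] in
theorem bm_sm (h : IsHyp F U X ξ) : ContDiffOn ℝ ∞ (bm F X ξ) U := by
  unfold bm
  exact ContDiffOn.sum fun i _ => bil_sm (F i).B (cmp_sm h.op h.smN i) (cmp_sm h.op h.smX i)

theorem shape_sm (h : IsHyp F U X ξ) :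
    ∃ S : E → E →L[ℝ] E, ContDiffOn ℝ ∞ S U ∧
      (∀ u ∈ U, ∀ v w, gm F X u (S u v) w = -bm F X ξ u v w) ∧
      (∀ u ∈ U, CPC.IsShape F X ξ u ((S u : E →L[ℝ] E) : E →ₗ[ℝ] E)) ∧
      ∀ u ∈ U, ∀ v w, gm F X u (S u v) w = gm F X u v (S u w) := by
  obtain ⟨S, hS, hS2⟩ := solve_op h.op (gm_sm h) (fun u hu v hv => gm_pos h hu hv)
    (fun u => -(bm F X ξ u)) (bm_sm h).neg
  have hS3 : ∀ u ∈ U, ∀ v w, gm F X u (S u v) w = -bm F X ξ u v w := by
    intro u hu v w
    rw [hS2 u hu v w]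
    rfl
  refine ⟨S, hS, hS3, fun u hu v i => ?_, fun u hu v w => ?_⟩
  · show fderiv ℝ X u (S u v) i =
      -(fderiv ℝ ξ u v i + ((F i).k * (F i).B (ξ u i) (fderiv ℝ X u v i)) • X u i)
    obtain ⟨Z, hZ⟩ : ∃ Z : ∀ i, W i, Z = fun i =>
      fderiv ℝ ξ u v i + ((F i).k * (F i).B (ξ u i) (fderiv ℝ X u v i)) • X u i := ⟨_, rfl⟩
    have hZt : IsTan F (X u) Z := by
      intro j
      by_cases hk : (F j).k = 0
      · rw [hk, zero_mul]
      · have h1 := h.pt u hu j hk
        have h2 := cross h hu v j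
        rw [hZ]
        simp only [map_add, map_smul, smul_eq_mul]
        linear_combination h2 + (F j).k * (F j).B (ξ u j) (fderiv ℝ X u v j) * h1
    have hZo : ip F (ξ u) Z = 0 := by
      have h1 := N_xi h hu v
      have h2 : ip F (ξ u) Z = ip F (ξ u) (fderiv ℝ ξ u v) +
          ∑ j, (F j).B (ξ u j) (fderiv ℝ X u v j) * ((F j).k * (F j).B (X u j) (ξ u j)) := by
        unfold ip
        rw [← Finset.sum_add_distrib, hZ]
        refine Finset.sum_congr rfl fun j _ => ?_
        simp only [map_add, map_smul, smul_eq_mul]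
        rw [(F j).symm (ξ u j) (X u j)]
        ring
      rw [h2, h1, zero_add]
      refine Finset.sum_eq_zero fun j _ => ?_
      rw [h.tan u hu j, mul_zero]
    obtain ⟨z, hz⟩ := h.codim u hu Z hZt hZo
    have hzw : ∀ w, gm F X u z w = bm F X ξ u v w := by
      intro w
      rw [gm_apply, bm_apply, hz]
      have h2 : ip F Z (fderiv ℝ X u w) = ip F (fderiv ℝ ξ u v) (fderiv ℝ X u w) +
          ∑ j, (F j).B (ξ u j) (fderiv ℝ X u v j) *
            ((F j).k * (F j).B (X u j) (fderiv ℝ X u w j)) := by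
        unfold ip
        rw [← Finset.sum_add_distrib, hZ]
        refine Finset.sum_congr rfl fun j _ => ?_
        simp only [map_add, map_smul, smul_eq_mul, _root_.add_apply, _root_.smul_apply]
        ring
      rw [h2]
      have h3 : ∑ j, (F j).B (ξ u j) (fderiv ℝ X u v j) *
            ((F j).k * (F j).B (X u j) (fderiv ℝ X u w j)) = 0 := by
        refine Finset.sum_eq_zero fun j _ => ?_
        rw [A_tan h hu w j, mul_zero]
      rw [h3, add_zero]
    have hzS : z + S u v = 0 := by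
      by_contra hne
      have h1 := gm_pos h hu hne
      have h2 : gm F X u (z + S u v) (z + S u v) = 0 := by
        have e : ∀ y : E, gm F X u (z + S u v) y = gm F X u z y + gm F X u (S u v) y := by
          intro y
          rw [(gm F X u).map_add]
          rfl
        rw [e, hzw, hS3 u hu]
        ring
      rw [h2] at h1
      exact lt_irrefl _ h1
    have hSz : S u v = -z := by
      rw [eq_neg_iff_add_eq_zero, add_comm]
      exact hzS
    rw [hSz, map_neg, hz, hZ]
    rfl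
  · have hU : U ∈ nhds u := h.op.mem_nhds hu
    have hsymm : fderiv ℝ (fderiv ℝ X) u v w = fderiv ℝ (fderiv ℝ X) u w v := by
      have h1 : IsSymmSndFDerivAt ℝ X u :=
        (h.smX.contDiffAt hU).isSymmSndFDerivAt (by
          rw [minSmoothness_of_isRCLikeNormedField]
          show ((2 : ℕ∞) : WithTop ℕ∞) ≤ _
          exact WithTop.coe_le_coe.2 le_top)
      exact h1.eq v w
    have h1 := hyp_selfadj h hu v w
    have h2 := hyp_selfadj h hu w v
    rw [hsymm] at h1
    rw [gm_symm u v (S u w), hS3 u hu, hS3 u hu, bm_apply, bm_apply]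
    linarith

end Pool.Agent.QnR
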