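import Pool.Agent.QnR.GeoB

/-!
# Gauss formula and Codazzi equation (helper50)

`A = dX_u`, `N = dξ_u`, `D²X(v, w) = fderiv (fderiv X) u v w`, symmetric (`isSymmSndFDerivAt`, as in
`CPC/PtOf.lean`).  `g = gm F X u`.
* `gauss`: `Γ(v, w)` = the unique solution of `g(Γ(v, w), z) = ip(D²X(v, w), A z)` for all `z` (`g` is
  nondegenerate); bilinear and symmetric by uniqueness.  Put
  `Z i = D²X(v, w) i - g(S v, w) ξ_i + k_i B(A v i, A w i) x_i`.
  `k B(x, Z) = k B(x, D²X(v, w)) - 0 + k B(A v, A w) (k B(x, x)) = 0`, because differentiating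
  `k B(x, A w) = 0` (`A_tan`, `w` fixed) in the direction `v` gives `k B(A v, A w) + k B(x, D²X(v, w)) = 0`
  and `k B(x, x) = 1` if `k ≠ 0`, `k B(x, ξ) = 0`.  `ip(ξ, Z) = ip(ξ, D²X(v, w)) - g(S v, w) + 0 = 0`:
  `ip(ξ, D²X(v, w)) = -ip(N v, A w) = -bm u v w = g(S v, w)` (`hyp_selfadj`, `bm_apply`).  So `Z` is tangent
  and orthogonal to `ξ`, `Z = A z` (`codim`), and `g(z, y) = ip(Z, A y) = ip(D²X(v, w), A y)`
  (`ip(ξ, A y) = 0`, `k B(x, A y) = 0`), so `z = Γ(v, w)`.
* `dgm`: `gm F X u' w z = ip(dX_{u'} w, dX_{u'} z)` for all `u'`; product rule: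
  `ip(D²X(v, w), A z) + ip(A w, D²X(v, z))`; insert the Gauss formula: `ip(A Γ(v,w), A z)`, the other
  terms are orthogonal to `A z`.
* `codazzi`: near `u`: `dξ w i = -dX(S w) i - k_i B(ξ_i, dX w i) x_i` (`IsShape`, `w` fixed).  Derivative
  in the direction `v`:
  `D²ξ(v, w) i = -D²X(v, S w) i - A((∂_v S) w) i - k_i [B(N v i, A w i) + B(ξ_i, D²X(v, w) i)] x_i
     - k_i B(ξ_i, A w i) A v i`.
  Subtract the same with `v, w` exchanged (`D²ξ`, `D²X` symmetric) and apply `∑_i B(·, A z i)`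
  (`k_i B(x_i, A z i) = 0`), use `ip(D²X(v, y), A z) = g(Γ(v, y), z)`:
  `0 = -g(Γ(v, S w) - Γ(w, S v), z) - g((∂_v S) w - (∂_w S) v, z)
     - ∑ k_i [B(ξ_i, A w i) B(A v i, A z i) - B(ξ_i, A v i) B(A w i, A z i)]`.
  With `DS u v w - DS u w v = (∂_v S) w - (∂_w S) v + Γ(v, S w) - Γ(w, S v)` (`Γ` symmetric).
-/

namespace Pool.Agent.QnR

open scoped BigOperators ContDiff
open Pool.Agent.CPC

variable {ι : Type*} [Fintype ι] {W : ι → Type*} [∀ i, NormedAddCommGroup (W i)]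
  [∀ i, NormedSpace ℝ (W i)] {E : Type*} [NormedAddCommGroup E] [NormedSpace ℝ E]
  [FiniteDimensional ℝ E] {F : ∀ i, SF (W i)} {U : Set E} {X ξ : E → ∀ i, W i}

omit [Fintype ι] [FiniteDimensional ℝ E] in
theorem gc_inf_le : ((2 : ℕ∞) : WithTop ℕ∞) ≤ (∞ : WithTop ℕ∞) :=
  WithTop.coe_le_coe.2 le_top

omit [FiniteDimensional ℝ E] in
theorem gc_snd_symm {f : E → ∀ i, W i} {u : E} (hf : ContDiffAt ℝ ∞ f u) (v w : E) :
    fderiv ℝ (fderiv ℝ f) u v w = fderiv ℝ (fderiv ℝ f) u w v := by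
  have h1 : IsSymmSndFDerivAt ℝ f u := hf.isSymmSndFDerivAt (by
    rw [minSmoothness_of_isRCLikeNormedField]
    show ((2 : ℕ∞) : WithTop ℕ∞) ≤ _
    exact WithTop.coe_le_coe.2 le_top)
  exact h1.eq v w

omit [FiniteDimensional ℝ E] in
theorem gc_diff {f : E → ∀ i, W i} {u : E} (hf : ContDiffAt ℝ ∞ f u) :
    DifferentiableAt ℝ (fderiv ℝ f) u := by
  have h1 : ContDiffAt ℝ 1 (fderiv ℝ f) u :=
    hf.fderiv_right (m := 1) (by
      show ((2 : ℕ∞) : WithTop ℕ∞) ≤ _
      exact WithTop.coe_le_coe.2 le_top)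
  exact h1.differentiableAt one_ne_zero

omit [FiniteDimensional ℝ E] in
theorem gc_hasFD {f : E → ∀ i, W i} {u : E} (hf : ContDiffAt ℝ ∞ f u) (w : E) (i : ι) :
    HasFDerivAt (fun u' => fderiv ℝ f u' w i)
      ((ContinuousLinearMap.proj (R := ℝ) (φ := W) i).comp
        ((ContinuousLinearMap.apply ℝ (∀ i, W i) w).comp (fderiv ℝ (fderiv ℝ f) u))) u :=
  (ContinuousLinearMap.proj (R := ℝ) (φ := W) i).hasFDerivAt.comp u
    ((ContinuousLinearMap.apply ℝ (∀ i, W i) w).hasFDerivAt.comp u (gc_diff hf).hasFDerivAt)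

omit [FiniteDimensional ℝ E] in
/-- the derivative of `k B(x, A w) = 0` -/
theorem gc_d2_tan (h : IsHyp F U X ξ) {u : E} (hu : u ∈ U) (v w : E) (i : ι) :
    (F i).k * ((F i).B (fderiv ℝ X u v i) (fderiv ℝ X u w i) +
      (F i).B (X u i) (fderiv ℝ (fderiv ℝ X) u v w i)) = 0 := by
  have hU : U ∈ nhds u := h.op.mem_nhds hu
  have hX : DifferentiableAt ℝ X u := (h.smX.contDiffAt hU).differentiableAt (by simp)
  have h1 := bil_const (F i).B (hyp_comp hX i) (gc_hasFD (h.smX.contDiffAt hU) w i)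
    (k := (F i).k) (c := 0) (by
      filter_upwards [hU] with u' hu'
      exact A_tan h hu' w i) v
  simpa using h1

/-- the Gauss formula at `u` -/
def IsGam (F : ∀ i, SF (W i)) (X ξ : E → ∀ i, W i) (S : E → E →L[ℝ] E) (u : E)
    (G : E →L[ℝ] E →L[ℝ] E) : Prop :=
  (∀ v w, G v w = G w v) ∧ ∀ v w i, fderiv ℝ (fderiv ℝ X) u v w i =
    fderiv ℝ X u (G v w) i + gm F X u (S u v) w • ξ u i -
      ((F i).k * (F i).B (fderiv ℝ X u v i) (fderiv ℝ X u w i)) • X u i

/-- the tangential part of the second derivative -/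
noncomputable def gcZ (F : ∀ i, SF (W i)) (X ξ : E → ∀ i, W i) (S : E → E →L[ℝ] E) (u : E)
    (v w : E) : ∀ i, W i := fun i =>
  fderiv ℝ (fderiv ℝ X) u v w i - gm F X u (S u v) w • ξ u i +
      ((F i).k * (F i).B (fderiv ℝ X u v i) (fderiv ℝ X u w i)) • X u i

theorem gcZ_ex (h : IsHyp F U X ξ) {S : E → E →L[ℝ] E}
    (hS : ∀ u ∈ U, ∀ v w, gm F X u (S u v) w = -bm F X ξ u v w) {u : E} (hu : u ∈ U) (v w : E) :
    ∃ z, fderiv ℝ X u z = gcZ F X ξ S u v w := by
  apply h.codim u hu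
  · intro i
    by_cases hk : (F i).k = 0
    · rw [hk, zero_mul]
    · have h1 := gc_d2_tan h hu v w i
      have h2 := h.pt u hu i hk
      have h3 := h.tan u hu i
      simp only [gcZ, map_add, map_sub, map_smul, smul_eq_mul]
      linear_combination h1 - gm F X u (S u v) w * h3 +
        (F i).k * (F i).B (fderiv ℝ X u v i) (fderiv ℝ X u w i) * h2
  · have h1 := hyp_selfadj h hu v w
    have h2 := hS u hu v w
    rw [bm_apply] at h2
    have h3 := h.unit u hu
    have h4 : ∀ i, (F i).B (ξ u i) (gcZ F X ξ S u v w i) =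
        (F i).B (ξ u i) (fderiv ℝ (fderiv ℝ X) u v w i) -
          gm F X u (S u v) w * (F i).B (ξ u i) (ξ u i) := by
      intro i
      have h5 := h.tan u hu i
      rw [(F i).symm] at h5
      simp only [gcZ, map_add, map_sub, map_smul, smul_eq_mul]
      linear_combination (F i).B (fderiv ℝ X u v i) (fderiv ℝ X u w i) * h5
    have h6 : ip F (ξ u) (gcZ F X ξ S u v w) = ip F (ξ u) (fderiv ℝ (fderiv ℝ X) u v w) -
        gm F X u (S u v) w * ip F (ξ u) (ξ u) := by
      simp only [ip, h4, Finset.sum_sub_distrib, Finset.mul_sum]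
    rw [h6, h3, h2]
    linarith

theorem gauss (h : IsHyp F U X ξ) {S : E → E →L[ℝ] E}
    (hS : ∀ u ∈ U, ∀ v w, gm F X u (S u v) w = -bm F X ξ u v w) {u : E} (hu : u ∈ U) :
    ∃ G : E →L[ℝ] E →L[ℝ] E, IsGam F X ξ S u G := by
  have hU : U ∈ nhds u := h.op.mem_nhds hu
  choose z hz using gcZ_ex h hS hu
  have hinj := h.inj u hu
  let Gl : E →ₗ[ℝ] E →ₗ[ℝ] E := LinearMap.mk₂ ℝ z
    (by
      intro v v' w
      apply hinj
      rw [map_add, hz, hz, hz]
      funext i
      simp only [gcZ, map_add, ContinuousLinearMap.add_apply, Pi.add_apply]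
      module)
    (by
      intro c v w
      apply hinj
      rw [map_smul, hz, hz]
      funext i
      simp only [gcZ, map_smul, ContinuousLinearMap.smul_apply, Pi.smul_apply, smul_eq_mul]
      module)
    (by
      intro v w w'
      apply hinj
      rw [map_add, hz, hz, hz]
      funext i
      simp only [gcZ, map_add, Pi.add_apply]
      module)
    (by
      intro c v w
      apply hinj
      rw [map_smul, hz, hz]
      funext i
      simp only [gcZ, map_smul, Pi.smul_apply, smul_eq_mul]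
      module)
  have hsym := gc_snd_symm (h.smX.contDiffAt hU)
  refine ⟨Gl.toContinuousBilinearMap, ?_, ?_⟩
  · intro v w
    show z v w = z w v
    apply hinj
    rw [hz, hz]
    funext i
    have h1 := hS u hu v w
    have h2 := hS u hu w v
    rw [bm_apply] at h1 h2
    have h3 := hyp_selfadj h hu v w
    have h4 := hyp_selfadj h hu w v
    rw [hsym w v] at h4
    have h5 : gm F X u (S u v) w = gm F X u (S u w) v := by linarith
    simp only [gcZ]
    rw [hsym w v, h5, (F i).symm (fderiv ℝ X u w i)]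
  · intro v w i
    show _ = fderiv ℝ X u (z v w) i + _ - _
    rw [hz]
    simp only [gcZ]
    module

/-- pairing with a tangent vector -/
theorem gc_d2_ip (h : IsHyp F U X ξ) {S : E → E →L[ℝ] E} {u : E} (hu : u ∈ U)
    {G : E →L[ℝ] E →L[ℝ] E} (hG : IsGam F X ξ S u G) (v w z : E) :
    ip F (fderiv ℝ (fderiv ℝ X) u v w) (fderiv ℝ X u z) = gm F X u (G v w) z := by
  have h4 : ∀ i, (F i).B (fderiv ℝ (fderiv ℝ X) u v w i) (fderiv ℝ X u z i) =
      (F i).B (fderiv ℝ X u (G v w) i) (fderiv ℝ X u z i) +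
        gm F X u (S u v) w * (F i).B (ξ u i) (fderiv ℝ X u z i) := by
    intro i
    have h5 := A_tan h hu z i
    rw [hG.2 v w i]
    simp only [map_add, map_sub, map_smul, smul_eq_mul, ContinuousLinearMap.add_apply,
      ContinuousLinearMap.sub_apply, ContinuousLinearMap.smul_apply]
    linear_combination -(F i).B (fderiv ℝ X u v i) (fderiv ℝ X u w i) * h5
  have h6 := h.orth u hu z
  rw [gm_apply]
  unfold ip at h6 ⊢
  simp only [h4, Finset.sum_add_distrib, ← Finset.mul_sum]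
  rw [h6, mul_zero, add_zero]

theorem dgm (h : IsHyp F U X ξ) {S : E → E →L[ℝ] E} {u : E} (hu : u ∈ U)
    {G : E →L[ℝ] E →L[ℝ] E} (hG : IsGam F X ξ S u G) (v w z : E) :
    fderiv ℝ (gm F X) u v w z = gm F X u (G v w) z + gm F X u w (G v z) := by
  have hU : U ∈ nhds u := h.op.mem_nhds hu
  have hX := h.smX.contDiffAt hU
  have hgd : DifferentiableAt ℝ (gm F X) u :=
    ((gm_sm h).contDiffAt hU).differentiableAt (by simp)
  have h1 := (hgd.hasFDerivAt.clm_apply (hasFDerivAt_const w u)).clm_apply (hasFDerivAt_const z u)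
  have h2 : HasFDerivAt (fun u' => ∑ i, (F i).B (fderiv ℝ X u' w i) (fderiv ℝ X u' z i)) _ u :=
    HasFDerivAt.fun_sum fun i _ =>
      (F i).B.hasFDerivAt_of_bilinear (gc_hasFD hX w i) (gc_hasFD hX z i)
  have h3 : (fun u' => gm F X u' w z) =
      fun u' => ∑ i, (F i).B (fderiv ℝ X u' w i) (fderiv ℝ X u' z i) := by
    funext u'
    rw [gm_apply]
    rfl
  rw [h3] at h1
  have h4 := h1.unique h2
  have h5 := congrArg (fun T : E →L[ℝ] ℝ => T v) h4
  simp only [ContinuousLinearMap.sum_apply, ContinuousLinearMap.add_apply,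
    ContinuousLinearMap.precompR_apply, ContinuousLinearMap.precompL_apply,
    Finset.sum_add_distrib, ContinuousLinearMap.comp_apply, ContinuousLinearMap.flip_apply,
    ContinuousLinearMap.zero_apply, map_zero, zero_add,
    ContinuousLinearMap.proj_apply, ContinuousLinearMap.apply_apply] at h5
  rw [h5, add_comm]
  have h6 := gc_d2_ip h hu hG v w z
  have h7 := gc_d2_ip h hu hG v z w
  rw [gm_symm u w, ← h6, ← h7]
  unfold ip
  congr 1
  exact Finset.sum_congr rfl fun i _ => (F i).symm _ _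

/-- the derivative of the equation of the shape operator -/
theorem gc_d2xi (h : IsHyp F U X ξ) {S : E → E →L[ℝ] E} (smS : ContDiffOn ℝ ∞ S U)
    (hsh : ∀ u ∈ U, CPC.IsShape F X ξ u ((S u : E →L[ℝ] E) : E →ₗ[ℝ] E))
    {u : E} (hu : u ∈ U) (v w : E) (i : ι) :
    fderiv ℝ (fderiv ℝ ξ) u v w i =
      -(fderiv ℝ X u (fderiv ℝ S u v w) i + fderiv ℝ (fderiv ℝ X) u v (S u w) i) -
        (((F i).k * (F i).B (ξ u i) (fderiv ℝ X u w i)) • fderiv ℝ X u v i +
        ((F i).k * ((F i).B (fderiv ℝ ξ u v i) (fderiv ℝ X u w i) +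
          (F i).B (ξ u i) (fderiv ℝ (fderiv ℝ X) u v w i))) • X u i) := by
  have hU : U ∈ nhds u := h.op.mem_nhds hu
  have hX := h.smX.contDiffAt hU
  have hN := h.smN.contDiffAt hU
  have hXd : DifferentiableAt ℝ X u := hX.differentiableAt (by simp)
  have hNd : DifferentiableAt ℝ ξ u := hN.differentiableAt (by simp)
  have hSd : DifferentiableAt ℝ S u := (smS.contDiffAt hU).differentiableAt (by simp)
  have a1 : HasFDerivAt (fun u' => S u' w)
      ((ContinuousLinearMap.apply ℝ E w).comp (fderiv ℝ S u)) u :=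
    (ContinuousLinearMap.apply ℝ E w).hasFDerivAt.comp u hSd.hasFDerivAt
  have a2 := (gc_diff hX).hasFDerivAt.clm_apply a1
  have a3 := (ContinuousLinearMap.proj (R := ℝ) (φ := W) i).hasFDerivAt.comp u a2
  have b1 := ((F i).B.hasFDerivAt_of_bilinear (hyp_comp hNd i) (gc_hasFD hX w i)).const_mul (F i).k
  have b2 := b1.smul (hyp_comp hXd i)
  have c1 := a3.neg.sub b2
  have c2 : (fun u' => fderiv ℝ ξ u' w i) =ᶠ[nhds u]
      ((-⇑(ContinuousLinearMap.proj (R := ℝ) (φ := W) i) ∘ fun y => (fderiv ℝ X y) ((S y) w)) -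
      (fun y => (F i).k * ((F i).B (ξ y i)) ((fderiv ℝ X y) w i)) • fun u' => X u' i) := by
    filter_upwards [hU] with u' hu'
    show fderiv ℝ ξ u' w i = -(fderiv ℝ X u' (S u' w) i) -
      ((F i).k * (F i).B (ξ u' i) (fderiv ℝ X u' w i)) • X u' i
    have := hsh u' hu' w i
    have h2 : fderiv ℝ X u' (S u' w) i = -(fderiv ℝ ξ u' w i +
      ((F i).k * (F i).B (ξ u' i) (fderiv ℝ X u' w i)) • X u' i) := this
    rw [h2]
    module
  have c3 := c1.congr_of_eventuallyEq c2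
  have c4 := (gc_hasFD hN w i).unique c3
  have c5 := congrArg (fun T : E →L[ℝ] W i => T v) c4
  simp only [ContinuousLinearMap.add_apply, ContinuousLinearMap.sub_apply,
    ContinuousLinearMap.neg_apply, ContinuousLinearMap.smul_apply,
    ContinuousLinearMap.smulRight_apply, ContinuousLinearMap.flip_apply,
    ContinuousLinearMap.precompR_apply, ContinuousLinearMap.precompL_apply,
    ContinuousLinearMap.comp_apply, Pi.add_apply,
    ContinuousLinearMap.proj_apply, ContinuousLinearMap.apply_apply, smul_eq_mul] at c5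
  rw [add_comm ((F i).B (fderiv ℝ ξ u v i) (fderiv ℝ X u w i))]
  exact c5

theorem gc_d2xi_ip (h : IsHyp F U X ξ) {S : E → E →L[ℝ] E} (smS : ContDiffOn ℝ ∞ S U)
    (hsh : ∀ u ∈ U, CPC.IsShape F X ξ u ((S u : E →L[ℝ] E) : E →ₗ[ℝ] E))
    {Γ : E → E →L[ℝ] E →L[ℝ] E} (hΓ : ∀ u ∈ U, IsGam F X ξ S u (Γ u)) {u : E} (hu : u ∈ U)
    (v w z : E) :
    ip F (fderiv ℝ (fderiv ℝ ξ) u v w) (fderiv ℝ X u z) =
      -(gm F X u (fderiv ℝ S u v w) z + gm F X u (Γ u v (S u w)) z) -
        ∑ i, (F i).k * ((F i).B (ξ u i) (fderiv ℝ X u w i) *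
          (F i).B (fderiv ℝ X u v i) (fderiv ℝ X u z i)) := by
  have h4 : ∀ i, (F i).B (fderiv ℝ (fderiv ℝ ξ) u v w i) (fderiv ℝ X u z i) =
      -((F i).B (fderiv ℝ X u (fderiv ℝ S u v w) i) (fderiv ℝ X u z i) +
        (F i).B (fderiv ℝ (fderiv ℝ X) u v (S u w) i) (fderiv ℝ X u z i)) -
        (F i).k * ((F i).B (ξ u i) (fderiv ℝ X u w i) *
          (F i).B (fderiv ℝ X u v i) (fderiv ℝ X u z i)) := by
    intro i
    have h5 := A_tan h hu z i
    rw [gc_d2xi h smS hsh hu v w i]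
    simp only [map_add, map_sub, map_neg, map_smul, smul_eq_mul, ContinuousLinearMap.add_apply,
      ContinuousLinearMap.sub_apply, ContinuousLinearMap.neg_apply,
      ContinuousLinearMap.smul_apply]
    linear_combination -((F i).B (fderiv ℝ ξ u v i) (fderiv ℝ X u w i) +
      (F i).B (ξ u i) (fderiv ℝ (fderiv ℝ X) u v w i)) * h5
  rw [← gc_d2_ip h hu (hΓ u hu) v (S u w) z, gm_apply]
  unfold ip
  simp only [h4, Finset.sum_sub_distrib, Finset.sum_neg_distrib, Finset.sum_add_distrib]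

theorem codazzi (h : IsHyp F U X ξ) {S : E → E →L[ℝ] E} (smS : ContDiffOn ℝ ∞ S U)
    (hsh : ∀ u ∈ U, CPC.IsShape F X ξ u ((S u : E →L[ℝ] E) : E →ₗ[ℝ] E))
    {Γ : E → E →L[ℝ] E →L[ℝ] E} (hΓ : ∀ u ∈ U, IsGam F X ξ S u (Γ u)) {u : E} (hu : u ∈ U)
    (v w z : E) :
    gm F X u (DS S Γ u v w - DS S Γ u w v) z =
      -∑ i, (F i).k * ((F i).B (ξ u i) (fderiv ℝ X u w i) *
          (F i).B (fderiv ℝ X u v i) (fderiv ℝ X u z i) -
        (F i).B (ξ u i) (fderiv ℝ X u v i) *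
          (F i).B (fderiv ℝ X u w i) (fderiv ℝ X u z i)) := by
  have hU : U ∈ nhds u := h.op.mem_nhds hu
  have h1 := gc_d2xi_ip h smS hsh hΓ hu v w z
  have h2 := gc_d2xi_ip h smS hsh hΓ hu w v z
  rw [gc_snd_symm (h.smN.contDiffAt hU) w v] at h2
  have h3 : DS S Γ u v w - DS S Γ u w v = (fderiv ℝ S u v w + Γ u v (S u w)) -
      (fderiv ℝ S u w v + Γ u w (S u v)) := by
    unfold DS
    rw [(hΓ u hu).1 w v]
    abel
  rw [h3]
  simp only [map_sub, map_add, ContinuousLinearMap.add_apply, ContinuousLinearMap.sub_apply]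
  have h4 : ∑ i, (F i).k * ((F i).B (ξ u i) (fderiv ℝ X u w i) *
          (F i).B (fderiv ℝ X u v i) (fderiv ℝ X u z i) -
        (F i).B (ξ u i) (fderiv ℝ X u v i) *
          (F i).B (fderiv ℝ X u w i) (fderiv ℝ X u z i)) =
      ∑ i, (F i).k * ((F i).B (ξ u i) (fderiv ℝ X u w i) *
          (F i).B (fderiv ℝ X u v i) (fderiv ℝ X u z i)) -
      ∑ i, (F i).k * ((F i).B (ξ u i) (fderiv ℝ X u v i) *
          (F i).B (fderiv ℝ X u w i) (fderiv ℝ X u z i)) := by
    rw [← Finset.sum_sub_distrib]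
    exact Finset.sum_congr rfl fun i _ => by ring
  rw [h4]
  linarith

end Pool.Agent.QnR
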