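import Pool.Agent.QnR.Def

/-!
# Spectral projections (helper50)

`S u` is self-adjoint for the inner product `g u` and has the characteristic polynomial `P` for all
`u ∈ U`.  `Λ` = the roots of `P`, `Λs` = the roots of multiplicity one.  If `U` is empty, everything is
trivial (take `Pr = 0`), so fix a point.  Define `Pr a u = aeval (S u) (L_a)`, `L_a = ∏_{b ∈ Λ, b ≠ a}
(X - b)/(a - b)` the Lagrange basis polynomial (`Lagrange.basis Λ id a`), in the algebra
`E →L[ℝ] E`.
* `sm`: `u ↦ aeval (S u) p` is smooth for every polynomial `p` (induction on `p`; composition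
  of linear maps is smooth, `ContDiffOn.pow` / `ContDiffOn.clm_comp`).
* `S u` is diagonalisable with eigenvalues in `Λ`: it is symmetric for the inner product `g u`
  (spectral theorem, `LinearMap.IsSymmetric` for the inner product space built from `g u` via
  `InnerProductSpace.ofCore`; or directly: `E` is the direct sum of the eigenspaces because for a
  self-adjoint operator the orthogonal complement of the sum of the eigenspaces is invariant).  So
  every `x` is a sum of eigenvectors, and on the eigenspace of `a ∈ Λ` the operator `aeval (S u) p` is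
  the multiplication by `p(a)`; `L_a(a) = 1`, `L_a(b) = 0` for `b ∈ Λ`, `b ≠ a`.  This gives `sum`, `idem`,
  `orth`, `eig`, `comm`.  Eigenvalues are the roots of `P` (`Module.End.hasEigenvalue_iff_isRoot_charpoly`
  or similar).
* `sa`: `aeval (S u) p` is self-adjoint for `g u` (induction on `p`).
* `ex`: a root is an eigenvalue; `Pr a x = x` for an eigenvector `x` of `a`.
* `mult`: for a root `a` of multiplicity at least `2` the eigenspace has dimension at least `2`:
  the generalised eigenspace has dimension = multiplicity of the root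
  (`LinearMap.finrank_maxGenEigenspace_eq`) and is the eigenspace as `S u` is self-adjoint
  (semisimple); so it is not contained in the line of `y`.
-/

namespace Pool.Agent.QnR

open scoped BigOperators ContDiff

/-- Spectral theorem for an operator which is self-adjoint for a positive definite bilinear form. -/
theorem spec_aux {V : Type*} [AddCommGroup V] [Module ℝ V] [FiniteDimensional ℝ V]
    (B : V → V → ℝ) (badd : ∀ x y z, B (x + y) z = B x z + B y z)
    (bsmul : ∀ (r : ℝ) x y, B (r • x) y = r * B x y)
    (symm : ∀ v w, B v w = B w v) (pos : ∀ v, v ≠ 0 → 0 < B v v)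
    (T : V →ₗ[ℝ] V) (sa : ∀ v w, B (T v) w = B v (T w)) :
    (⨆ μ, Module.End.eigenspace T μ) = ⊤ ∧
      ∀ μ, Module.End.maxGenEigenspace T μ = Module.End.eigenspace T μ := by
  let core : InnerProductSpace.Core ℝ V :=
    { inner := fun v w => B v w
      conj_inner_symm := fun x y => by
        simp only [conj_trivial]
        exact symm y x
      re_inner_nonneg := fun x => by
        simp only [RCLike.re_to_real]
        by_cases hx : x = 0
        · rw [hx]
          have h0 : B (0 : V) 0 = 0 := by
            have := bsmul 0 0 0
            rw [zero_smul, zero_mul] at this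
            exact this
          rw [h0]
        · exact (pos x hx).le
      add_left := fun x y z => badd x y z
      smul_left := fun x y r => by
        simp only [conj_trivial]
        exact bsmul r x y
      definite := fun x hx => by
        by_contra hc
        exact (pos x hc).ne' hx }
  let _ : NormedAddCommGroup V := core.toNormedAddCommGroup
  let _ : InnerProductSpace ℝ V := InnerProductSpace.ofCore core.toCore
  have hT : T.IsSymmetric := fun v w => sa v w
  constructor
  · have h := hT.orthogonalComplement_iSup_eigenspaces_eq_bot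
    rwa [Submodule.orthogonal_eq_bot_iff] at h
  · intro μ
    exact hT.isFinitelySemisimple.maxGenEigenspace_eq_eigenspace μ

variable {E : Type*} [NormedAddCommGroup E] [NormedSpace ℝ E]

/-- a polynomial of an operator acts on an eigenvector by its value -/
theorem spec_aeval_eig (T : E →L[ℝ] E) {x : E} {μ : ℝ} (h : T x = μ • x) (p : Polynomial ℝ) :
    (Polynomial.aeval T p) x = p.eval μ • x := by
  induction p using Polynomial.induction_on' with
  | add p q hp hq =>
    rw [map_add, Polynomial.eval_add, add_smul, ← hp, ← hq]
    rfl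
  | monomial n a =>
    have hn : ∀ n : ℕ, (T ^ n) x = μ ^ n • x := by
      intro n
      induction n with
      | zero => simp
      | succ n ih =>
        rw [pow_succ]
        change (T ^ n) (T x) = _
        rw [h, map_smul, ih, smul_smul, pow_succ, mul_comm]
    rw [Polynomial.aeval_monomial, Polynomial.eval_monomial, Algebra.algebraMap_eq_smul_one,
      smul_mul_assoc, one_mul]
    change a • (T ^ n) x = _
    rw [hn, smul_smul]

/-- a polynomial of a self-adjoint operator is self-adjoint -/
theorem spec_aeval_sa (G : E →L[ℝ] E →L[ℝ] ℝ) (T : E →L[ℝ] E)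
    (sa : ∀ v w, G (T v) w = G v (T w)) (p : Polynomial ℝ) (x y : E) :
    G ((Polynomial.aeval T p) x) y = G x ((Polynomial.aeval T p) y) := by
  induction p using Polynomial.induction_on' generalizing x y with
  | add p q hp hq =>
    rw [map_add]
    change G (Polynomial.aeval T p x + Polynomial.aeval T q x) y =
      G x (Polynomial.aeval T p y + Polynomial.aeval T q y)
    rw [map_add, map_add, ← hp, ← hq]
    rfl
  | monomial n a =>
    have hn : ∀ n : ℕ, ∀ x y, G ((T ^ n) x) y = G x ((T ^ n) y) := by
      intro n
      induction n with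
      | zero => simp
      | succ n ih =>
        intro x y
        have e1 : (T ^ (n + 1)) x = (T ^ n) (T x) := by rw [pow_succ]; rfl
        have e2 : (T ^ (n + 1)) y = T ((T ^ n) y) := by rw [pow_succ']; rfl
        rw [e1, e2, ih, sa]
    rw [Polynomial.aeval_monomial, Algebra.algebraMap_eq_smul_one, smul_mul_assoc, one_mul]
    change G (a • (T ^ n) x) y = G x (a • (T ^ n) y)
    rw [map_smul, map_smul, ← hn]
    rfl

/-- polynomials of a smooth family of operators are smooth -/
theorem spec_aeval_smooth {U : Set E} {S : E → E →L[ℝ] E} (smS : ContDiffOn ℝ ∞ S U)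
    (p : Polynomial ℝ) : ContDiffOn ℝ ∞ (fun u => Polynomial.aeval (S u) p) U := by
  induction p using Polynomial.induction_on' with
  | add p q hp hq => simpa only [map_add] using hp.add hq
  | monomial n a =>
    have hn : ∀ n : ℕ, ContDiffOn ℝ ∞ (fun u => S u ^ n) U := by
      intro n
      induction n with
      | zero => simpa using contDiffOn_const
      | succ n ih =>
        simp only [pow_succ]
        exact ih.clm_comp smS
    have : (fun u => Polynomial.aeval (S u) (Polynomial.monomial n a)) = fun u => a • S u ^ n := by
      funext u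
      rw [Polynomial.aeval_monomial, Algebra.algebraMap_eq_smul_one, smul_mul_assoc, one_mul]
    rw [this]
    exact (hn n).const_smul a

variable [FiniteDimensional ℝ E]
  {U : Set E} {g : E → E →L[ℝ] E →L[ℝ] ℝ} {S : E → E →L[ℝ] E}

open Classical in
theorem exists_spec (smS : ContDiffOn ℝ ∞ S U)
    (symm : ∀ u ∈ U, ∀ v w, g u v w = g u w v) (pos : ∀ u ∈ U, ∀ v, v ≠ 0 → 0 < g u v v)
    (sa : ∀ u ∈ U, ∀ v w, g u (S u v) w = g u v (S u w)) (P : Polynomial ℝ)
    (hP : ∀ u ∈ U, LinearMap.charpoly ((S u : E →L[ℝ] E) : E →ₗ[ℝ] E) = P) :
    ∃ Pr : ℝ → E → E →L[ℝ] E, Spec U g S P.roots.toFinset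
      (P.roots.toFinset.filter (fun a => P.rootMultiplicity a = 1)) Pr := by
  set Λ := P.roots.toFinset with hΛ
  set L : ℝ → Polynomial ℝ := fun a => Lagrange.basis Λ id a with hL
  have hinj : Set.InjOn (id : ℝ → ℝ) Λ := Set.injOn_id _
  have hLa : ∀ a ∈ Λ, (L a).eval a = 1 := fun a ha =>
    Lagrange.eval_basis_self hinj ha
  have hLb : ∀ a b, b ∈ Λ → a ≠ b → (L a).eval b = 0 := fun a b hb hab =>
    Lagrange.eval_basis_of_ne (v := id) hab hb
  -- agreement on eigenvectors
  have hspan : ∀ u ∈ U, ∀ F G : E →ₗ[ℝ] E,
      (∀ μ ∈ Λ, ∀ x, S u x = μ • x → F x = G x) → F = G := by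
    intro u hu F G h
    obtain ⟨h1, _⟩ := spec_aux (fun v w => g u v w) (by intro x y z; simp) (by intro r x y; simp)
      (symm u hu) (pos u hu) ((S u : E →L[ℝ] E) : E →ₗ[ℝ] E) (sa u hu)
    have h2 : (⨆ μ, Module.End.eigenspace ((S u : E →L[ℝ] E) : E →ₗ[ℝ] E) μ) ≤
        LinearMap.eqLocus F G := by
      refine iSup_le fun μ => ?_
      intro x hx
      have hx' : S u x = μ • x := Module.End.mem_eigenspace_iff.1 hx
      by_cases h0 : x = 0
      · rw [h0]; exact Submodule.zero_mem _
      · have hev : Module.End.HasEigenvalue ((S u : E →L[ℝ] E) : E →ₗ[ℝ] E) μ :=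
          Module.End.hasEigenvalue_of_hasEigenvector ⟨hx, h0⟩
        rw [Module.End.hasEigenvalue_iff_isRoot_charpoly, hP u hu] at hev
        have hP0 : P ≠ 0 := by
          rw [← hP u hu]
          exact (LinearMap.charpoly_monic _).ne_zero
        have hμ : μ ∈ Λ := by
          rw [hΛ, Multiset.mem_toFinset, Polynomial.mem_roots hP0]
          exact hev
        exact h μ hμ x hx'
    rw [h1, top_le_iff] at h2
    exact LinearMap.eqLocus_eq_top.1 h2
  have hspan' : ∀ u ∈ U, ∀ F G : E →L[ℝ] E,
      (∀ μ ∈ Λ, ∀ x, S u x = μ • x → F x = G x) → ∀ x, F x = G x := by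
    intro u hu F G h x
    have := hspan u hu (F : E →ₗ[ℝ] E) (G : E →ₗ[ℝ] E) h
    exact congrArg (fun H : E →ₗ[ℝ] E => H x) this
  refine ⟨fun a u => Polynomial.aeval (S u) (L a), ?_⟩
  have hfix : ∀ u, ∀ a ∈ Λ, ∀ x, S u x = a • x → Polynomial.aeval (S u) (L a) x = x := by
    intro u a ha x hx
    rw [spec_aeval_eig _ hx, hLa a ha, one_smul]
  have hzero : ∀ u, ∀ a, ∀ b ∈ Λ, a ≠ b → ∀ x, S u x = b • x →
      Polynomial.aeval (S u) (L a) x = 0 := by
    intro u a b hb hab x hx
    rw [spec_aeval_eig _ hx, hLb a b hb hab, zero_smul]
  have heig : ∀ u ∈ U, ∀ a ∈ Λ, ∀ x, S u (Polynomial.aeval (S u) (L a) x) =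
      a • Polynomial.aeval (S u) (L a) x := by
    intro u hu a ha
    refine hspan' u hu ((S u).comp (Polynomial.aeval (S u) (L a)))
      (a • Polynomial.aeval (S u) (L a)) ?_
    intro μ hμ x hx
    change S u (Polynomial.aeval (S u) (L a) x) = a • Polynomial.aeval (S u) (L a) x
    by_cases h : a = μ
    · subst h
      rw [hfix u a ha x hx, hx]
    · rw [hzero u a μ hμ h x hx, map_zero, smul_zero]
  exact
    { sub := Finset.filter_subset _ _
      sm := fun a _ => spec_aeval_smooth smS (L a)
      sum := fun u hu x => by
        have := hspan' u hu (∑ a ∈ Λ, Polynomial.aeval (S u) (L a)) (ContinuousLinearMap.id ℝ E) (by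
          intro μ hμ x hx
          rw [ContinuousLinearMap.sum_apply, Finset.sum_eq_single μ]
          · exact hfix u μ hμ x hx
          · intro b hb hbμ
            exact hzero u b μ hμ hbμ x hx
          · intro h
            exact absurd hμ h) x
        rw [ContinuousLinearMap.sum_apply] at this
        exact this
      idem := fun u hu a ha x => hfix u a ha _ (heig u hu a ha x)
      orth := fun u hu a ha b hb hab x => hzero u a b hb hab _ (heig u hu b hb x)
      eig := heig
      comm := fun u hu a ha x => by
        refine hspan' u hu ((Polynomial.aeval (S u) (L a)).comp (S u))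
          (a • Polynomial.aeval (S u) (L a)) ?_ x
        intro μ hμ x hx
        change Polynomial.aeval (S u) (L a) (S u x) = a • Polynomial.aeval (S u) (L a) x
        by_cases h : a = μ
        · subst h
          rw [hx, map_smul]
        · rw [hx, map_smul, hzero u a μ hμ h x hx, smul_zero, smul_zero]
      sa := fun u hu a ha x y => spec_aeval_sa (g u) (S u) (sa u hu) (L a) x y
      ex := fun u hu a ha => by
        have hP0 : P ≠ 0 := by
          rw [← hP u hu]
          exact (LinearMap.charpoly_monic _).ne_zero
        have ha' := ha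
        rw [hΛ, Multiset.mem_toFinset, Polynomial.mem_roots hP0, ← hP u hu,
          ← Module.End.hasEigenvalue_iff_isRoot_charpoly] at ha'
        obtain ⟨x, hx⟩ := ha'.exists_hasEigenvector
        exact ⟨x, hx.2, hfix u a ha x (Module.End.mem_eigenspace_iff.1 hx.1)⟩
      mult := fun u hu a ha ha' y => by
        have hP0 : P ≠ 0 := by
          rw [← hP u hu]
          exact (LinearMap.charpoly_monic _).ne_zero
        have hroot : P.IsRoot a := by
          have h := ha
          rw [hΛ, Multiset.mem_toFinset, Polynomial.mem_roots hP0] at h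
          exact h
        have h1 : P.rootMultiplicity a ≠ 1 := fun h => ha' (Finset.mem_filter.2 ⟨ha, h⟩)
        have h2 : 0 < P.rootMultiplicity a := (Polynomial.rootMultiplicity_pos hP0).2 hroot
        obtain ⟨_, h3⟩ := spec_aux (fun v w => g u v w) (by intro x y z; simp)
          (by intro r x y; simp) (symm u hu) (pos u hu) ((S u : E →L[ℝ] E) : E →ₗ[ℝ] E) (sa u hu)
        have h4 : Module.finrank ℝ
            (Module.End.eigenspace ((S u : E →L[ℝ] E) : E →ₗ[ℝ] E) a) = P.rootMultiplicity a := by
          rw [← h3 a, LinearMap.finrank_maxGenEigenspace_eq, hP u hu]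
        by_contra hc
        push Not at hc
        have h5 : Module.End.eigenspace ((S u : E →L[ℝ] E) : E →ₗ[ℝ] E) a ≤
            Submodule.span ℝ {y} := by
          intro x hx
          obtain ⟨c, hcx⟩ := hc x (hfix u a ha x (Module.End.mem_eigenspace_iff.1 hx))
          rw [hcx]
          exact Submodule.smul_mem _ _ (Submodule.mem_span_singleton_self y)
        have h6 := Submodule.finrank_mono h5
        have h7 : Module.finrank ℝ (Submodule.span ℝ {y}) ≤ 1 := by
          have := finrank_span_le_card (R := ℝ) ({y} : Set E)
          simpa using this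
        omega }

end Pool.Agent.QnR
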