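import Pool.Agent.QnR.Def

/-!
# Generic points (helper50)

* `dense_pts`: finitely many continuous functions `f_a` (`a ∈ Λ`) on an open set `V`; if `V` is not empty
  there are a nonempty open `O ⊆ V` and `J ⊆ Λ` with `f_a` nowhere zero on `O` for `a ∈ J` and `f_a = 0` on
  `O` for `a ∈ Λ \ J`.  Proof: choose `u ∈ V` with the largest number of `a` with `f_a u ≠ 0`, let `J` be
  this set; near `u` (in `V`) these are still not zero, and by maximality the others are zero.
* `const_of_dense`: `y` smooth on the open preconnected set `U`, and every nonempty open `V ⊆ U`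
  contains a point where the derivative of `y` vanishes.  Then `y` is constant on `U`: the derivative
  is continuous on `U` and vanishes on a dense subset, so it is zero
  (`IsOpen.is_const_of_fderiv_eq_zero` for preconnected open sets).
-/

namespace Pool.Agent.QnR

open scoped BigOperators ContDiff

variable {E : Type*} [NormedAddCommGroup E] [NormedSpace ℝ E] [FiniteDimensional ℝ E]

theorem dense_pts {V : Set E} (hV : IsOpen V) (hne : V.Nonempty) (Λ : Finset ℝ) (f : ℝ → E → ℝ)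
    (hf : ∀ a ∈ Λ, ContinuousOn (f a) V) :
    ∃ O : Set E, IsOpen O ∧ O.Nonempty ∧ O ⊆ V ∧ ∃ J ⊆ Λ, (∀ u ∈ O, ∀ a ∈ J, f a u ≠ 0) ∧
      (∀ u ∈ O, ∀ a ∈ Λ, a ∉ J → f a u = 0) := by
  classical
  set 𝒥 : Finset (Finset ℝ) := Λ.powerset.filter (fun J => ∃ u ∈ V, ∀ a ∈ J, f a u ≠ 0) with h𝒥
  have h𝒥ne : 𝒥.Nonempty := by
    obtain ⟨u, hu⟩ := hne
    refine ⟨∅, Finset.mem_filter.mpr ⟨Finset.empty_mem_powerset _, u, hu, ?_⟩⟩
    intro a ha
    exact absurd ha (Finset.notMem_empty a)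
  obtain ⟨J, hJ, hmax⟩ := Finset.exists_max_image 𝒥 Finset.card h𝒥ne
  obtain ⟨hJΛ, u, hu, hJu⟩ := Finset.mem_filter.mp hJ
  have hJΛ' : J ⊆ Λ := Finset.mem_powerset.mp hJΛ
  refine ⟨V ∩ ⋂ a ∈ J, (V ∩ f a ⁻¹' {0}ᶜ), ?_, ?_, Set.inter_subset_left, J, hJΛ', ?_, ?_⟩
  · apply hV.inter
    apply isOpen_biInter_finset
    intro a ha
    exact (hf a (hJΛ' ha)).isOpen_inter_preimage hV isOpen_compl_singleton
  · refine ⟨u, hu, ?_⟩
    rw [Set.mem_iInter₂]
    intro a ha
    exact ⟨hu, hJu a ha⟩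
  · intro x hx a ha
    have h1 := Set.mem_iInter₂.mp hx.2 a ha
    exact h1.2
  · intro x hx a ha haJ
    by_contra hcon
    have hins : insert a J ∈ 𝒥 := by
      refine Finset.mem_filter.mpr ⟨Finset.mem_powerset.mpr (Finset.insert_subset ha hJΛ'),
        x, hx.1, ?_⟩
      intro b hb
      rcases Finset.mem_insert.mp hb with rfl | hb
      · exact hcon
      · have h1 := Set.mem_iInter₂.mp hx.2 b hb
        exact h1.2
    have h2 := hmax _ hins
    rw [Finset.card_insert_of_notMem haJ] at h2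
    omega

theorem const_of_dense {U : Set E} (hU : IsOpen U) (hc : IsPreconnected U) {y : E → ℝ}
    (hy : ContDiffOn ℝ ∞ y U)
    (h : ∀ V : Set E, IsOpen V → V.Nonempty → V ⊆ U → ∃ u ∈ V, fderiv ℝ y u = 0) :
    ∀ u ∈ U, ∀ u' ∈ U, y u = y u' := by
  have hcont : ContinuousOn (fderiv ℝ y) U := hy.continuousOn_fderiv_of_isOpen hU (by simp)
  have hzero : U.EqOn (fderiv ℝ y) 0 := by
    intro u hu
    by_contra hcon
    have hopen : IsOpen (U ∩ (fderiv ℝ y) ⁻¹' {0}ᶜ) :=
      hcont.isOpen_inter_preimage hU isOpen_compl_singleton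
    obtain ⟨v, hv, hv0⟩ := h _ hopen ⟨u, hu, hcon⟩ Set.inter_subset_left
    exact hv.2 hv0
  have hdiff : DifferentiableOn ℝ y U := hy.differentiableOn (by simp)
  intro u hu u' hu'
  exact hU.is_const_of_fderiv_eq_zero hc hdiff hzero hu hu'

end Pool.Agent.QnR
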