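import Pool.Agent.QnR.Quad
import Pool.Agent.QnR.Calc
import Pool.Agent.QnR.Top
import Pool.Agent.QnR.Spec
import Pool.Agent.QnR.GeoOf
import Pool.Agent.CPC.Main

/-!
# Hypersurfaces of `Q × ℝ` with constant principal curvatures, few of them simple (helper50)
-/

namespace Pool.Agent.QnR

open scoped BigOperators ContDiff

section intrinsic

variable {E : Type*} [NormedAddCommGroup E] [NormedSpace ℝ E] [FiniteDimensional ℝ E]
  {U : Set E} {k : ℝ} {g : E → E →L[ℝ] E →L[ℝ] ℝ} {S : E → E →L[ℝ] E} {T : E → E}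
  {ν : E → ℝ} {Γ : E → E →L[ℝ] E →L[ℝ] E} {Λ Λs : Finset ℝ} {Pr : ℝ → E → E →L[ℝ] E}

theorem xx_sm (h : Geo U k g S T ν Γ) (hs : Spec U g S Λ Λs Pr) {a : ℝ} (ha : a ∈ Λ) :
    ContDiffOn ℝ ∞ (xx g T Pr a) U := by
  have h1 : ContDiffOn ℝ ∞ (fun u => Pr a u (T u)) U := (hs.sm a ha).clm_apply h.smT
  exact (h.smg.clm_apply h1).clm_apply h1

theorem sum_xx (h : Geo U k g S T ν Γ) (hs : Spec U g S Λ Λs Pr) {u : E} (hu : u ∈ U) :
    ∑ a ∈ Λ, xx g T Pr a u = 1 - ν u ^ 2 := by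
  rw [← h.TT u hu]
  have h1 : ∀ a ∈ Λ, xx g T Pr a u = g u (T u) (Pr a u (T u)) := by
    intro a ha
    unfold xx
    rw [hs.sa u hu a ha, hs.idem u hu a ha]
  rw [Finset.sum_congr rfl h1, ← map_sum, hs.sum u hu]

/-- the derivatives of the `x_a` vanish at generic points. -/
theorem dxx_zero (h : Geo U k g S T ν Γ) (hs : Spec U g S Λ Λs Pr) (hk : k ≠ 0)
    (hcond : (Λs.card ≤ 3 ∧ Λs ≠ Λ) ∨ 2 * Λs.card ≤ Λ.card) {O : Set E} (hO : IsOpen O)
    (hne : O.Nonempty) (hOU : O ⊆ U) (hν : ∀ u ∈ O, ν u ≠ 0) {J : Finset ℝ} (hJ : J ⊆ Λ)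
    (hx : ∀ u ∈ O, ∀ a ∈ J, xx g T Pr a u ≠ 0)
    (hx0 : ∀ u ∈ O, ∀ a ∈ Λ, a ∉ J → xx g T Pr a u = 0) :
    ∀ a ∈ J, ∀ u ∈ O, fderiv ℝ (xx g T Pr a) u = 0 := by
  classical
  have hT : ∀ u ∈ O, ∀ a ∈ Λ, a ∉ J → Pr a u (T u) = 0 := by
    intro u hu a ha haJ
    by_contra hne0
    exact (h.pos u (hOU hu) _ hne0).ne' (hx0 u hu a ha haJ)
  have hJs : J ⊆ Λs := by
    intro a ha
    by_contra has
    obtain ⟨u, hu⟩ := hne
    have h1 := T_mult h hs hk (hOU hu) (hν u hu) (hJ ha) has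
    apply hx u hu a ha
    unfold xx
    rw [h1]
    simp
  have hsm : ∀ a ∈ J, ContDiffOn ℝ ∞ (xx g T Pr a) O := fun a ha => (xx_sm h hs (hJ ha)).mono hOU
  rcases hcond with ⟨h3, hΛ⟩ | h2
  · -- at most three simple eigenvalues, one multiple
    obtain ⟨b, hb, hbs⟩ : ∃ b ∈ Λ, b ∉ Λs := by
      by_contra hcon
      push Not at hcon
      exact hΛ (Finset.Subset.antisymm hs.sub hcon)
    have hbJ : b ∉ J := fun hb' => hbs (hJs hb')
    have hJ3 : J.card ≤ 3 := (Finset.card_le_card hJs).trans h3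
    set K : Finset ℝ := J.image (fun a => (a - b)⁻¹) with hK
    have hinj : Set.InjOn (fun a => (a - b)⁻¹) (J : Set ℝ) := by
      intro a _ c _ hac
      have : a - b = c - b := inv_injective hac
      linarith
    have hnz : ∀ κ ∈ K, κ ≠ 0 := by
      intro κ hκ
      obtain ⟨a, ha, rfl⟩ := Finset.mem_image.1 hκ
      exact inv_ne_zero (sub_ne_zero.2 fun hab => hbJ (hab ▸ ha))
    set ξ : ℝ → E → ℝ := fun κ u => κ * xx g T Pr (κ⁻¹ + b) u with hξ
    have hval : ∀ a : ℝ, ((a - b)⁻¹)⁻¹ + b = a := fun a => by rw [inv_inv]; ring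
    have key := quad_const hO hk K hnz ξ (by
      intro κ hκ
      obtain ⟨a, ha, rfl⟩ := Finset.mem_image.1 hκ
      have h1 : ξ (a - b)⁻¹ = fun u => (a - b)⁻¹ * xx g T Pr a u := by
        funext u
        simp only [hξ, hval]
      rw [h1]
      exact contDiffOn_const.mul (hsm a ha)) (b / k) (by
      intro u hu
      rw [hK, Finset.sum_image (fun a ha c hc hac => hinj ha hc hac)]
      have h1 : ∑ x ∈ J, ξ (x - b)⁻¹ u = ∑ a ∈ J, (a - b)⁻¹ * xx g T Pr a u :=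
        Finset.sum_congr rfl fun a _ => by simp only [hξ, hval]
      rw [h1, ← g_T_ww h hs (hOU hu) hJ b, eq_div_iff hk, mul_comm]
      exact rel_one h hs hO hOU hν hJ hb hbJ hT hu) (by
      intro u hu
      obtain ⟨q, hq⟩ := quad h hs hk hO hOU hν hJ hJ3 hb hbJ hT hu
      refine ⟨q, fun κ hκ => ?_⟩
      obtain ⟨a, ha, rfl⟩ := Finset.mem_image.1 hκ
      have := hq a ha
      simp only [hξ, hval]
      exact this)
    intro a ha u hu
    have h1 := key (a - b)⁻¹ (Finset.mem_image_of_mem _ ha) u hu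
    have h2 : ξ (a - b)⁻¹ = fun u => (a - b)⁻¹ * xx g T Pr a u := by
      funext u
      simp only [hξ, hval]
    rw [h2] at h1
    have hd : DifferentiableAt ℝ (xx g T Pr a) u :=
      ((hsm a ha).contDiffAt (hO.mem_nhds hu)).differentiableAt (by simp)
    rw [fderiv_const_mul hd] at h1
    have h3 : (a - b)⁻¹ ≠ 0 := inv_ne_zero (sub_ne_zero.2 fun hab => hbJ (hab ▸ ha))
    exact (smul_eq_zero.1 h1).resolve_left h3
  · -- at least as many multiple as simple eigenvalues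
    intro a ha u hu
    ext v
    rw [ContinuousLinearMap.zero_apply]
    have hd : ∀ a ∈ J, DifferentiableAt ℝ (xx g T Pr a) u := fun a ha =>
      ((hsm a ha).contDiffAt (hO.mem_nhds hu)).differentiableAt (by simp)
    have hcard : J.card ≤ (Λ \ J).card := by
      have h4 := Finset.card_le_card hJs
      have h5 := Finset.card_sdiff_add_card_eq_card hJ
      omega
    refine cauchy J (Λ \ J) Finset.disjoint_sdiff hcard (fun a => fderiv ℝ (xx g T Pr a) u v)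
      (fun b hb => ?_) a ha
    obtain ⟨hb1, hb2⟩ := Finset.mem_sdiff.1 hb
    have h6 : ∀ᶠ u' in nhds u, ∑ a ∈ J, (a - b)⁻¹ * xx g T Pr a u' = b / k := by
      filter_upwards [hO.mem_nhds hu] with u' hu'
      rw [← g_T_ww h hs (hOU hu') hJ b, eq_div_iff hk, mul_comm]
      exact rel_one h hs hO hOU hν hJ hb1 hb2 hT hu'
    have h7 : HasFDerivAt (fun u' => ∑ a ∈ J, (a - b)⁻¹ * xx g T Pr a u')
        (∑ a ∈ J, (a - b)⁻¹ • fderiv ℝ (xx g T Pr a) u) u :=
      HasFDerivAt.fun_sum fun a ha => (hd a ha).hasFDerivAt.const_mul _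
    have h8 : (fun u' => ∑ a ∈ J, (a - b)⁻¹ * xx g T Pr a u') =ᶠ[nhds u] fun _ => b / k := h6
    have h9 := (h7.congr_of_eventuallyEq h8.symm).unique (hasFDerivAt_const (b / k) u)
    have h10 := congrArg (fun L : E →L[ℝ] ℝ => L v) h9
    simp only [ContinuousLinearMap.sum_apply, ContinuousLinearMap.smul_apply, smul_eq_mul,
      ContinuousLinearMap.zero_apply] at h10
    exact h10

theorem nu_const (h : Geo U k g S T ν Γ) (hs : Spec U g S Λ Λs Pr) (hk : k ≠ 0)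
    (hcond : (Λs.card ≤ 3 ∧ Λs ≠ Λ) ∨ 2 * Λs.card ≤ Λ.card) (hc : IsPreconnected U) :
    ∀ u ∈ U, ∀ u' ∈ U, ν u ^ 2 = ν u' ^ 2 := by
  refine const_of_dense h.op hc (h.smν.pow 2) ?_
  intro V hV hVne hVU
  by_cases hz : ∀ u ∈ V, ν u = 0
  · obtain ⟨u, hu⟩ := hVne
    refine ⟨u, hu, ?_⟩
    have h1 : (fun u => ν u ^ 2) =ᶠ[nhds u] fun _ => (0 : ℝ) := by
      filter_upwards [hV.mem_nhds hu] with u' hu'
      rw [hz u' hu']
      norm_num
    rw [h1.fderiv_eq, fderiv_fun_const]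
    rfl
  · push Not at hz
    obtain ⟨u₀, hu₀, hν₀⟩ := hz
    have hcont : ContinuousOn ν V := h.smν.continuousOn.mono hVU
    set V' : Set E := V ∩ ν ⁻¹' {0}ᶜ with hV'
    have hV'o : IsOpen V' := hcont.isOpen_inter_preimage hV isOpen_compl_singleton
    have hV'V : V' ⊆ V := Set.inter_subset_left
    obtain ⟨O, hO, hOne, hOV, J, hJ, hx, hx0⟩ := dense_pts hV'o ⟨u₀, hu₀, hν₀⟩ Λ (xx g T Pr)
      (fun a ha => ((xx_sm h hs ha).continuousOn).mono (hV'V.trans hVU))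
    have hOU : O ⊆ U := hOV.trans (hV'V.trans hVU)
    have hνO : ∀ u ∈ O, ν u ≠ 0 := fun u hu => (hOV hu).2
    have hd := dxx_zero h hs hk hcond hO hOne hOU hνO hJ hx hx0
    obtain ⟨u, hu⟩ := hOne
    refine ⟨u, hV'V (hOV hu), ?_⟩
    have h1 : (fun u => ν u ^ 2) =ᶠ[nhds u] fun u => 1 - ∑ a ∈ J, xx g T Pr a u := by
      filter_upwards [hO.mem_nhds hu] with u' hu'
      have h2 := sum_xx h hs (hOU hu')
      have h3 : ∑ a ∈ J, xx g T Pr a u' = ∑ a ∈ Λ, xx g T Pr a u' :=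
        Finset.sum_subset hJ fun a ha haJ => hx0 u' hu' a ha haJ
      rw [h3, h2]
      ring
    rw [h1.fderiv_eq]
    have h4 : HasFDerivAt (fun u => 1 - ∑ a ∈ J, xx g T Pr a u)
        (-(∑ a ∈ J, fderiv ℝ (xx g T Pr a) u)) u := by
      refine HasFDerivAt.const_sub (c := (1 : ℝ)) ?_
      refine HasFDerivAt.fun_sum fun a ha => ?_
      exact (((xx_sm h hs (hJ ha)).contDiffAt (h.op.mem_nhds (hOU hu))).differentiableAt
        (by simp)).hasFDerivAt
    rw [h4.fderiv, Finset.sum_eq_zero (fun a ha => hd a ha u hu), neg_zero]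

end intrinsic

open Pool.Agent.CPC

open Classical in
/-- Hypersurfaces of `Q × ℝ` with constant principal curvatures, few of them simple, are
isoparametric. -/
theorem main {ι : Type*} [Fintype ι] {W : ι → Type*} [∀ i, NormedAddCommGroup (W i)]
    [∀ i, NormedSpace ℝ (W i)] [∀ i, FiniteDimensional ℝ (W i)] {E : Type*}
    [NormedAddCommGroup E] [NormedSpace ℝ E] [FiniteDimensional ℝ E]
    {F : ∀ i, SF (W i)} {U : Set E} (hU : IsPreconnected U) {X ξ : E → ∀ i, W i}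
    (h : IsHyp F U X ξ) {i0 i1 : ι} (hne : i0 ≠ i1) (hι : ∀ i, i = i0 ∨ i = i1)
    (hk0 : (F i0).k ≠ 0) (hk1 : (F i1).k = 0) (hd : Module.finrank ℝ (W i1) = 1)
    (P : Polynomial ℝ)
    (hP : ∀ u ∈ U, ∃ S : E →ₗ[ℝ] E, IsShape F X ξ u S ∧ S.charpoly = P)
    (hcond : ((P.roots.toFinset.filter (fun a => P.rootMultiplicity a = 1)).card ≤ 3 ∧
        P.roots.toFinset.filter (fun a => P.rootMultiplicity a = 1) ≠ P.roots.toFinset) ∨
      2 * (P.roots.toFinset.filter (fun a => P.rootMultiplicity a = 1)).card ≤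
        P.roots.toFinset.card) :
    Isoparametric F U X ξ := by
  obtain ⟨g, S, T, ν, Γ, hg, hS, hν⟩ := exists_geo h hne hι hk1 hd
  have hSP : ∀ u ∈ U, LinearMap.charpoly ((S u : E →L[ℝ] E) : E →ₗ[ℝ] E) = P := by
    intro u hu
    obtain ⟨S', hS', hP'⟩ := hP u hu
    have : ((S u : E →L[ℝ] E) : E →ₗ[ℝ] E) = S' := by
      ext v
      apply h.inj u hu
      funext i
      rw [hS u hu v i, hS' v i]
    rw [this, hP']
  obtain ⟨Pr, hs⟩ := exists_spec hg.smS hg.symm hg.pos hg.sa P hSP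
  have hc := nu_const hg hs hk0 hcond hU
  refine CPC.main h ⟨P, hP⟩ ?_
  intro i u hu u' hu'
  have h1 : (F i1).B (ξ u i1) (ξ u i1) = (F i1).B (ξ u' i1) (ξ u' i1) := by
    rw [hν u hu, hν u' hu', hc u hu u' hu']
  have hsplit : ∀ w : ∀ i, W i, ip F w w =
      (F i0).B (w i0) (w i0) + (F i1).B (w i1) (w i1) := by
    intro w
    unfold ip
    have h2 : (Finset.univ : Finset ι) = {i0, i1} := by
      ext i
      simp [hι i]
    rw [h2, Finset.sum_pair hne]
  rcases hι i with rfl | rfl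
  · have h3 := h.unit u hu
    have h4 := h.unit u' hu'
    rw [hsplit] at h3 h4
    linarith
  · exact h1

end Pool.Agent.QnR
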