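import Pool.Agent.QnR.FF

/-!
# The quadratic relations for at most three components (helper50)

Situation of `FF`, at a point `u ∈ O`.  `t_a = Pr a T`, `x_a = xx g T Pr a u = g(t_a, t_a) = g(T, t_a)`,
`κ_a = (a - b)⁻¹` (`a ∈ J`, `b ∉ J`), `w = ∑_{a ∈ J} κ_a t_a`, `D := DS S Γ u`, `s(a, c, d) = g(D t_a t_c, t_d)`.
* `s(a, c, d) = s(a, d, c)` (`DS_sa`); `s(a, c, c) = 0` (`block`).
* `s(a, c, d) = s(c, a, d)` for pairwise different `a, c, d` (`cod`: `g(t_a, t_d) = g(t_c, t_d) = 0`, by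
  `sa`, `orth` of `Spec`).
* `s(a, a, c) = s(a, c, a) = k ν x_a x_c` for `a ≠ c` (`cod`: `D t_a t_c = D t_c t_a + k ν (g(T, t_c) t_a -
  g(T, t_a) t_c)`, apply `g(·, t_a)`: `s(c, a, a) = 0`, `g(t_c, t_a) = 0`).
* `rel_two` for `v = t_a`, `a ∈ J`: the left side is `∑_{c,d} κ_c κ_d s(a, c, d)
  = 2 κ_a ∑_{c ≠ a} κ_c k ν x_a x_c + ∑_{c ≠ d, both ≠ a} κ_c κ_d s(a, c, d)`, the right side is
  `2 ν g(a t_a, w) = 2 ν a κ_a x_a`.  By `rel_one`, `g_T_ww`: `k ∑_c κ_c x_c = b`, so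
  `k ∑_{c ≠ a} κ_c x_c = b - k κ_a x_a`, and (with `κ_a (a - b) = 1`)
  `∑_{c ≠ d, both ≠ a} κ_c κ_d s(a, c, d) = 2 ν κ_a x_a (a - b + k κ_a x_a) = 2 ν (x_a + k κ_a² x_a²)`.
* If `J` has at most two elements the left side is `0` and `q = 0` works (`ν ≠ 0`).  If
  `J = {a, c, d}`, the left side is `2 κ_c κ_d s`, `s = s(a, c, d)` (symmetric in all arguments), and
  `q = κ_a κ_c κ_d s / ν` works: multiply by `κ_a`.
  (Write `J = {a, c, d}` using `Finset.card_eq_three`; case `card ≤ 2` via `Finset.card_eq_two` etc.)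
-/

namespace Pool.Agent.QnR

open scoped BigOperators ContDiff

variable {E : Type*} [NormedAddCommGroup E] [NormedSpace ℝ E] [FiniteDimensional ℝ E]
  {U : Set E} {k : ℝ} {g : E → E →L[ℝ] E →L[ℝ] ℝ} {S : E → E →L[ℝ] E} {T : E → E}
  {ν : E → ℝ} {Γ : E → E →L[ℝ] E →L[ℝ] E} {Λ Λs : Finset ℝ} {Pr : ℝ → E → E →L[ℝ] E}

/-- The algebra for the relation: real numbers only. -/
private theorem quad_alg (J : Finset ℝ) (hJ3 : J.card ≤ 3) {b k n : ℝ} (hbJ : b ∉ J) (hn : n ≠ 0)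
    (x : ℝ → ℝ) (s : ℝ → ℝ → ℝ → ℝ)
    (s1 : ∀ a ∈ J, ∀ c ∈ J, ∀ d ∈ J, s a c d = s a d c)
    (s2 : ∀ a ∈ J, ∀ c ∈ J, s a c c = 0)
    (s3 : ∀ a ∈ J, ∀ c ∈ J, ∀ d ∈ J, a ≠ c → a ≠ d → c ≠ d → s a c d = s c a d)
    (s4 : ∀ a ∈ J, ∀ c ∈ J, a ≠ c → s a a c = k * n * (x a * x c))
    (s5 : ∀ a ∈ J, ∑ c ∈ J, ∑ d ∈ J, (c - b)⁻¹ * ((d - b)⁻¹ * s a c d) =
      2 * n * (a * ((a - b)⁻¹ * x a)))
    (s6 : k * ∑ c ∈ J, (c - b)⁻¹ * x c = b) :
    ∃ q : ℝ, ∀ a ∈ J, (a - b)⁻¹ * x a + k * (a - b)⁻¹ * ((a - b)⁻¹ * x a) ^ 2 = q := by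
  classical
  have hne : ∀ a ∈ J, a - b ≠ 0 := by
    intro a ha h0
    have : a = b := by linarith
    exact hbJ (this ▸ ha)
  have hcases : J.card = 0 ∨ J.card = 1 ∨ J.card = 2 ∨ J.card = 3 := by omega
  rcases hcases with hc | hc | hc | hc
  · rw [Finset.card_eq_zero] at hc
    subst hc
    exact ⟨0, fun a ha => absurd ha (Finset.notMem_empty a)⟩
  · rw [Finset.card_eq_one] at hc
    obtain ⟨a, rfl⟩ := hc
    refine ⟨(a - b)⁻¹ * x a + k * (a - b)⁻¹ * ((a - b)⁻¹ * x a) ^ 2, fun c hc => ?_⟩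
    rw [Finset.mem_singleton] at hc
    rw [hc]
  · rw [Finset.card_eq_two] at hc
    obtain ⟨a, c, hac, rfl⟩ := hc
    have ma : a ∈ ({a, c} : Finset ℝ) := by simp
    have mc : c ∈ ({a, c} : Finset ℝ) := by simp
    have ra := hne a ma
    have rc := hne c mc
    have e5a := s5 a ma
    have e5c := s5 c mc
    rw [Finset.sum_pair hac, Finset.sum_pair hac, Finset.sum_pair hac] at e5a e5c
    rw [Finset.sum_pair hac] at s6
    rw [s2 a ma a ma, s2 a ma c mc, s1 a ma c mc a ma, s4 a ma c mc hac] at e5a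
    rw [s2 c mc a ma, s2 c mc c mc, s1 c mc a ma c mc, s4 c mc a ma hac.symm] at e5c
    refine ⟨0, fun d hd => ?_⟩
    rw [Finset.mem_insert, Finset.mem_singleton] at hd
    set p := (a - b)⁻¹ with hp
    set r := (c - b)⁻¹ with hr
    have pa : p * (a - b) = 1 := inv_mul_cancel₀ ra
    have pc : r * (c - b) = 1 := inv_mul_cancel₀ rc
    rcases hd with rfl | rfl
    · have h1 : n * (p * x d + k * p * (p * x d) ^ 2) = 0 := by
        linear_combination (-(1/2) * p) * e5a + (n * p * (p * x d)) * s6 - (n * p * x d) * pa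
      exact (mul_eq_zero.1 h1).resolve_left hn
    · have h1 : n * (r * x d + k * r * (r * x d) ^ 2) = 0 := by
        linear_combination (-(1/2) * r) * e5c + (n * r * (r * x d)) * s6 - (n * r * x d) * pc
      exact (mul_eq_zero.1 h1).resolve_left hn
  · rw [Finset.card_eq_three] at hc
    obtain ⟨a, c, d, hac, had, hcd, rfl⟩ := hc
    have ma : a ∈ ({a, c, d} : Finset ℝ) := by simp
    have mc : c ∈ ({a, c, d} : Finset ℝ) := by simp
    have md : d ∈ ({a, c, d} : Finset ℝ) := by simp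
    have ra := hne a ma
    have rc := hne c mc
    have rd := hne d md
    have hsum : ∀ F : ℝ → ℝ, ∑ e ∈ ({a, c, d} : Finset ℝ), F e = F a + F c + F d := by
      intro F
      rw [Finset.sum_insert (by simp [hac, had]), Finset.sum_pair hcd]
      ring
    have e5a := s5 a ma
    have e5c := s5 c mc
    have e5d := s5 d md
    simp only [hsum] at e5a e5c e5d s6
    have q1 : s a d c = s a c d := s1 a ma d md c mc
    have q2 : s c a d = s a c d := (s3 a ma c mc d md hac had hcd).symm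
    have q3 : s c d a = s a c d := by rw [s1 c mc d md a ma, q2]
    have q4 : s d a c = s a c d := by
      rw [← q1]
      exact (s3 a ma d md c mc had hac hcd.symm).symm
    have q5 : s d c a = s a c d := by rw [s1 d md c mc a ma, q4]
    rw [s2 a ma a ma, s2 a ma c mc, s2 a ma d md, s1 a ma c mc a ma, s1 a ma d md a ma,
      s4 a ma c mc hac, s4 a ma d md had, q1] at e5a
    rw [s2 c mc a ma, s2 c mc c mc, s2 c mc d md, s1 c mc a ma c mc, s1 c mc d md c mc,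
      s4 c mc a ma hac.symm, s4 c mc d md hcd, q2, q3] at e5c
    rw [s2 d md a ma, s2 d md c mc, s2 d md d md, s1 d md a ma d md, s1 d md c mc d md,
      s4 d md a ma had.symm, s4 d md c mc hcd.symm, q4, q5] at e5d
    set p := (a - b)⁻¹ with hp
    set r := (c - b)⁻¹ with hr
    set t := (d - b)⁻¹ with ht
    have pa : p * (a - b) = 1 := inv_mul_cancel₀ ra
    have pc : r * (c - b) = 1 := inv_mul_cancel₀ rc
    have pd : t * (d - b) = 1 := inv_mul_cancel₀ rd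
    refine ⟨p * r * t * s a c d / n, fun e he => ?_⟩
    rw [eq_div_iff hn]
    rw [Finset.mem_insert, Finset.mem_insert, Finset.mem_singleton] at he
    rcases he with rfl | rfl | rfl
    · linear_combination (-(1/2) * p) * e5a + (n * p * (p * x e)) * s6 - (n * p * x e) * pa
    · linear_combination (-(1/2) * r) * e5c + (n * r * (r * x e)) * s6 - (n * r * x e) * pc
    · linear_combination (-(1/2) * t) * e5d + (n * t * (t * x e)) * s6 - (n * t * x e) * pd

theorem quad (h : Geo U k g S T ν Γ) (hs : Spec U g S Λ Λs Pr) (hk : k ≠ 0) {O : Set E}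
    (hO : IsOpen O) (hOU : O ⊆ U) (hν : ∀ u ∈ O, ν u ≠ 0) {J : Finset ℝ} (hJ : J ⊆ Λ)
    (hJ3 : J.card ≤ 3) {b : ℝ} (hb : b ∈ Λ) (hbJ : b ∉ J)
    (hT : ∀ u ∈ O, ∀ a ∈ Λ, a ∉ J → Pr a u (T u) = 0) {u : E} (hu : u ∈ O) :
    ∃ q : ℝ, ∀ a ∈ J, (a - b)⁻¹ * xx g T Pr a u +
      k * (a - b)⁻¹ * ((a - b)⁻¹ * xx g T Pr a u) ^ 2 = q := by
  classical
  have huU : u ∈ U := hOU hu
  have hxx : ∀ c ∈ Λ, g u (T u) (Pr c u (T u)) = xx g T Pr c u := by
    intro c hc
    unfold xx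
    rw [hs.sa u huU c hc, hs.idem u huU c hc]
  have horth : ∀ a ∈ Λ, ∀ c ∈ Λ, a ≠ c → g u (Pr a u (T u)) (Pr c u (T u)) = 0 := by
    intro a ha c hc hac
    rw [hs.sa u huU a ha, hs.orth u huU a ha c hc hac, map_zero]
  have hzero : ∀ a ∈ Λ, ∀ c ∈ Λ,
      g u (DS S Γ u (Pr a u (T u)) (Pr c u (T u))) (Pr c u (T u)) = 0 := by
    intro a ha c hc
    exact block h hs huU hc _ (hs.idem u huU c hc _) (hs.idem u huU c hc _)
  have hswap : ∀ a ∈ Λ, ∀ c ∈ Λ, ∀ d ∈ Λ,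
      g u (DS S Γ u (Pr a u (T u)) (Pr c u (T u))) (Pr d u (T u)) =
        g u (DS S Γ u (Pr a u (T u)) (Pr d u (T u))) (Pr c u (T u)) := by
    intro a ha c hc d hd
    rw [DS_sa h huU, h.symm u huU]
  have hcod : ∀ a ∈ Λ, ∀ c ∈ Λ, ∀ d ∈ Λ,
      g u (DS S Γ u (Pr a u (T u)) (Pr c u (T u))) (Pr d u (T u)) =
        g u (DS S Γ u (Pr c u (T u)) (Pr a u (T u))) (Pr d u (T u)) +
          k * ν u * (xx g T Pr c u * g u (Pr a u (T u)) (Pr d u (T u)) -
            xx g T Pr a u * g u (Pr c u (T u)) (Pr d u (T u))) := by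
    intro a ha c hc d hd
    have h1 := h.cod u huU (Pr a u (T u)) (Pr c u (T u))
    rw [hxx a ha, hxx c hc] at h1
    have h2 : DS S Γ u (Pr a u (T u)) (Pr c u (T u)) = DS S Γ u (Pr c u (T u)) (Pr a u (T u)) +
        (k * ν u) • (xx g T Pr c u • Pr a u (T u) - xx g T Pr a u • Pr c u (T u)) := by
      rw [← h1]
      abel
    rw [h2]
    simp only [map_add, map_smul, map_sub, add_apply, smul_apply, sub_apply, smul_eq_mul]
  refine quad_alg J hJ3 hbJ (hν u hu) (fun a => xx g T Pr a u)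
    (fun a c d => g u (DS S Γ u (Pr a u (T u)) (Pr c u (T u))) (Pr d u (T u)))
    (fun a ha c hc d hd => hswap a (hJ ha) c (hJ hc) d (hJ hd))
    (fun a ha c hc => hzero a (hJ ha) c (hJ hc)) ?_ ?_ ?_ ?_
  · intro a ha c hc d hd hac had hcd
    have h1 := hcod a (hJ ha) c (hJ hc) d (hJ hd)
    rw [horth a (hJ ha) d (hJ hd) had, horth c (hJ hc) d (hJ hd) hcd] at h1
    linarith
  · intro a ha c hc hac
    have h1 := hcod a (hJ ha) c (hJ hc) a (hJ ha)
    have h2 := hswap a (hJ ha) a (hJ ha) c (hJ hc)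
    rw [horth c (hJ hc) a (hJ ha) hac.symm, hzero c (hJ hc) a (hJ ha)] at h1
    have h3 : g u (Pr a u (T u)) (Pr a u (T u)) = xx g T Pr a u := rfl
    rw [h3] at h1
    rw [h2, h1]
    ring
  · intro a ha
    have h1 := rel_two h hs hk hO hOU hν hJ hb hbJ hT hu (Pr a u (T u))
    have hD : DS S Γ u (Pr a u (T u)) (ww T Pr J b u) =
        ∑ c ∈ J, (c - b)⁻¹ • DS S Γ u (Pr a u (T u)) (Pr c u (T u)) := by
      let D : E →ₗ[ℝ] E :=
        { toFun := DS S Γ u (Pr a u (T u))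
          map_add' := fun x y => DS_add u (Pr a u (T u)) x y
          map_smul' := fun c x => DS_smul u (Pr a u (T u)) x c }
      have hD0 : ∀ x, DS S Γ u (Pr a u (T u)) x = D x := fun _ => rfl
      unfold ww
      rw [hD0, map_sum]
      refine Finset.sum_congr rfl fun c _ => ?_
      rw [map_smul, ← hD0]
    have hL : g u (DS S Γ u (Pr a u (T u)) (ww T Pr J b u)) (ww T Pr J b u) =
        ∑ c ∈ J, ∑ d ∈ J, (c - b)⁻¹ * ((d - b)⁻¹ *
          g u (DS S Γ u (Pr a u (T u)) (Pr c u (T u))) (Pr d u (T u))) := by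
      rw [hD]
      unfold ww
      simp only [map_sum, map_smul, sum_apply, smul_apply, smul_eq_mul, Finset.mul_sum]
      rw [Finset.sum_comm]
      refine Finset.sum_congr rfl fun c _ => Finset.sum_congr rfl fun d _ => ?_
      ring
    have hR : g u (S u (Pr a u (T u))) (ww T Pr J b u) = a * ((a - b)⁻¹ * xx g T Pr a u) := by
      rw [hs.eig u huU a (hJ ha)]
      unfold ww
      simp only [map_sum, map_smul, smul_apply, smul_eq_mul]
      rw [Finset.sum_eq_single a]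
      · have h3 : g u (Pr a u (T u)) (Pr a u (T u)) = xx g T Pr a u := rfl
        rw [h3]
        ring
      · intro c hc hca
        rw [horth a (hJ ha) c (hJ hc) hca.symm, mul_zero, mul_zero]
      · intro hna
        exact absurd ha hna
    rw [hL, hR] at h1
    exact h1
  · have h1 := rel_one h hs hO hOU hν hJ hb hbJ hT hu
    rw [g_T_ww h hs huU hJ] at h1
    exact h1

end Pool.Agent.QnR
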